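import Pool.Agent.Y105.AInfPolish

open Set Topology TopologicalSpace Filter

namespace Y105.AInf

variable {G : Opens ℂ}

theorem analyticAt_iteratedDeriv {f : ℂ → ℂ} {z : ℂ} (hf : AnalyticAt ℂ f z) (j : ℕ) :
    AnalyticAt ℂ (iteratedDeriv j f) z := by
  induction j with
  | zero => simpa [iteratedDeriv_zero] using hf
  | succ j ih => rw [iteratedDeriv_succ]; exact ih.deriv

theorem iteratedDeriv_congr_open {f g : ℂ → ℂ} (h : ∀ z ∈ G, f z = g z) (j : ℕ) :
    ∀ z ∈ G, iteratedDeriv j f z = iteratedDeriv j g z := by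
  intro z hz
  have : f =ᶠ[𝓝 z] g := by
    filter_upwards [G.isOpen.mem_nhds hz] with w hw
    exact h w hw
  exact this.iteratedDeriv_eq j

theorem isClosed_range_Phi : IsClosed (range (Phi G)) := by
  rw [← closure_subset_iff_isClosed]
  intro Ψ hΨ
  rw [mem_closure_iff_comap_neBot] at hΨ
  let l : Filter (range (Phi G)) := comap Subtype.val (𝓝 Ψ)
  have hl : l.NeBot := hΨ
  -- pick preimages
  let s : range (Phi G) → AInfty G := fun y => y.2.choose
  have hs : ∀ y : range (Phi G), Phi G (s y) = y := fun y => y.2.choose_spec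
  have hlim : Tendsto (fun y => Phi G (s y)) l (𝓝 Ψ) := by
    simp_rw [hs]; exact tendsto_comap
  have hlimj : ∀ j, Tendsto (fun y => ext j (s y)) l (𝓝 (Ψ j)) := fun j =>
    ((continuous_apply j).tendsto _).comp hlim
  classical
  let ψ : ℕ → ℂ → ℂ := fun j z => if h : z ∈ closure (G : Set ℂ) then Ψ j ⟨z, h⟩ else 0
  have hψ : ∀ j (w : Z G), ψ j w = Ψ j w := by
    intro j w
    simp only [ψ, dif_pos w.2]
  have hψc : ∀ j, ContinuousOn (ψ j) (closure (G : Set ℂ)) := by
    intro j
    rw [continuousOn_iff_continuous_domRestrict]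
    have : (closure (G : Set ℂ)).domRestrict (ψ j) = Ψ j := by
      funext w; exact hψ j w
    rw [this]; exact (Ψ j).continuous
  have hunif : ∀ j, TendstoLocallyUniformlyOn (fun y z => iteratedDeriv j (s y) z) (ψ j) l
      (G : Set ℂ) := by
    intro j
    rw [tendstoLocallyUniformlyOn_iff_forall_isCompact G.isOpen]
    intro K hKG hK
    have hKc : IsCompact {w : Z G | (w : ℂ) ∈ K} :=
      (isClosed_closure (s := (G : Set ℂ))).isClosedEmbedding_subtypeVal.isCompact_preimage hK
    have h1 := hlimj j
    rw [ContinuousMap.tendsto_iff_forall_isCompact_tendstoUniformlyOn] at h1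
    have h2 := h1 _ hKc
    rw [Metric.tendstoUniformlyOn_iff] at h2 ⊢
    intro ε hε
    filter_upwards [h2 ε hε] with y hy z hz
    have h3 := hy ⟨z, subset_closure (hKG hz)⟩ hz
    rw [ext_apply _ _ _ (hKG hz), ← hψ] at h3
    exact h3
  let f0 : ℂ → ℂ := fun z => if z ∈ G then ψ 0 z else 0
  have hf0 : ∀ z ∈ G, f0 z = ψ 0 z := fun z hz => by simp only [f0, if_pos hz]
  have key : ∀ j, TendstoLocallyUniformlyOn (fun y z => iteratedDeriv j (s y) z)
      (iteratedDeriv j f0) l (G : Set ℂ) := by
    intro j
    induction j with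
    | zero =>
      refine (hunif 0).congr_right ?_
      intro z hz
      rw [iteratedDeriv_zero, hf0 z hz]
    | succ j ih =>
      have hd := TendstoLocallyUniformlyOn.deriv ih (Eventually.of_forall fun y z hz => by
        exact (analyticAt_iteratedDeriv (analyticAt (s y) hz) j).differentiableAt.differentiableWithinAt)
        G.isOpen
      rw [iteratedDeriv_succ]
      refine hd.congr ?_
      intro y z hz
      simp only [Function.comp]
      rw [iteratedDeriv_succ]
  have heq : ∀ j, ∀ z ∈ G, ψ j z = iteratedDeriv j f0 z := fun j z hz =>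
    tendsto_nhds_unique ((hunif j).tendsto_at hz) ((key j).tendsto_at hz)
  have hdiff : DifferentiableOn ℂ f0 G := by
    have := (key 0).differentiableOn (Eventually.of_forall fun y => by
      intro z hz
      exact (analyticAt_iteratedDeriv (analyticAt (s y) hz) 0).differentiableAt.differentiableWithinAt)
      G.isOpen
    simpa [iteratedDeriv_zero] using this
  let f : AInfty G := ⟨f0, fun z hz => by simp only [f0, if_neg hz], hdiff, fun j =>
    ⟨ψ j, hψc j, heq j⟩⟩
  refine ⟨f, ?_⟩
  funext j
  rw [Phi_apply]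
  apply ext_unique
  intro w hw
  rw [← hψ, heq j w hw]

theorem isClosedEmbedding_Phi : IsClosedEmbedding (Phi G) :=
  ⟨⟨isInducing_Phi, injective_Phi⟩, isClosed_range_Phi⟩

instance : PolishSpace (AInfty G) := isClosedEmbedding_Phi.polishSpace

theorem continuous_iteratedDeriv (j : ℕ) {c : ℂ} (hc : c ∈ G) :
    Continuous (fun f : AInfty G => iteratedDeriv j f c) := by
  have h : Continuous (fun f : AInfty G => (Phi G f j) ⟨c, subset_closure hc⟩) :=
    (continuous_eval_const (F := C(Z G, ℂ)) _).comp ((continuous_apply j).comp continuous_Phi)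
  convert h using 2 with f
  rw [Phi_apply, ext_apply _ _ _ hc]

end Y105.AInf
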