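import Mathlib

open Set Topology TopologicalSpace

namespace Y105.AInf

/-- The vector space `A^∞(G)` of an open set `G ⊆ ℂ`.  An element is a function `f : ℂ → ℂ`,
normalised to be `0` off `G`, which is holomorphic on `G` and all of whose derivatives
`f^(j)`, `j ≥ 0`, extend continuously from `G` to the closure of `G`. -/
def AInftySubmodule (G : Opens ℂ) : Submodule ℂ (ℂ → ℂ) where
  carrier := {f | (∀ z, z ∉ G → f z = 0) ∧ DifferentiableOn ℂ f G ∧
    ∀ j : ℕ, ∃ g : ℂ → ℂ, ContinuousOn g (closure (G : Set ℂ)) ∧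
      ∀ z ∈ G, g z = iteratedDeriv j f z}
  zero_mem' := by
    refine ⟨fun z _ => rfl, differentiableOn_const _, fun j => ⟨0, continuousOn_const, ?_⟩⟩
    intro z _
    have : (0 : ℂ → ℂ) = fun _ => 0 := rfl
    rw [this, iteratedDeriv_const]
    simp
  add_mem' := by
    rintro f g ⟨hf0, hf, hfj⟩ ⟨hg0, hg, hgj⟩
    refine ⟨fun z hz => by simp [hf0 z hz, hg0 z hz], hf.add hg, fun j => ?_⟩
    obtain ⟨u, hu, hu'⟩ := hfj j
    obtain ⟨v, hv, hv'⟩ := hgj j
    refine ⟨u + v, hu.add hv, fun z hz => ?_⟩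
    have h1 : ContDiffAt ℂ j f z := (hf.analyticAt (G.isOpen.mem_nhds hz)).contDiffAt
    have h2 : ContDiffAt ℂ j g z := (hg.analyticAt (G.isOpen.mem_nhds hz)).contDiffAt
    rw [iteratedDeriv_add h1 h2, Pi.add_apply, hu' z hz, hv' z hz]
  smul_mem' := by
    rintro c f ⟨hf0, hf, hfj⟩
    refine ⟨fun z hz => by simp [hf0 z hz], hf.const_smul c, fun j => ?_⟩
    obtain ⟨u, hu, hu'⟩ := hfj j
    refine ⟨c • u, hu.const_smul c, fun z hz => ?_⟩
    rw [iteratedDeriv_const_smul_field, Pi.smul_apply, hu' z hz]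

/-- The vector space `A^∞(G)` as a type of its own (so that it carries its own topology). -/
def AInfty (G : Opens ℂ) : Type := ↥(AInftySubmodule G)

noncomputable instance (G : Opens ℂ) : AddCommGroup (AInfty G) :=
  inferInstanceAs (AddCommGroup ↥(AInftySubmodule G))

noncomputable instance (G : Opens ℂ) : Module ℂ (AInfty G) :=
  inferInstanceAs (Module ℂ ↥(AInftySubmodule G))

/-- An element of `A^∞(G)` is used as a function on `ℂ` (equal to `0` off `G`). -/
instance (G : Opens ℂ) : CoeFun (AInfty G) (fun _ => ℂ → ℂ) := ⟨fun f => f.1⟩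

theorem analyticAt {G : Opens ℂ} (f : AInfty G) {z : ℂ} (hz : z ∈ G) : AnalyticAt ℂ f z :=
  f.2.2.1.analyticAt (G.isOpen.mem_nhds hz)

theorem contDiffAt {G : Opens ℂ} (f : AInfty G) {z : ℂ} (hz : z ∈ G) (j : ℕ) :
    ContDiffAt ℂ j f z :=
  (analyticAt f hz).contDiffAt

theorem iteratedDeriv_add' {G : Opens ℂ} (f g : AInfty G) {z : ℂ} (hz : z ∈ G) (j : ℕ) :
    iteratedDeriv j (f + g : AInfty G) z = iteratedDeriv j f z + iteratedDeriv j g z :=
  iteratedDeriv_add (contDiffAt f hz j) (contDiffAt g hz j)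

theorem iteratedDeriv_smul' {G : Opens ℂ} (c : ℂ) (f : AInfty G) (z : ℂ) (j : ℕ) :
    iteratedDeriv j (c • f : AInfty G) z = c * iteratedDeriv j f z :=
  iteratedDeriv_const_smul_field c _

/-- The compact subsets of the closure of `G`. -/
def CompactIn (G : Opens ℂ) : Type := {K : Set ℂ // IsCompact K ∧ K ⊆ closure (G : Set ℂ)}

instance (G : Opens ℂ) : Nonempty (CompactIn G) := ⟨⟨∅, isCompact_empty, empty_subset _⟩⟩

theorem bddAbove_range {G : Opens ℂ} (f : AInfty G) (j : ℕ) (K : CompactIn G) :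
    BddAbove (range fun z : ↥(K.1 ∩ (G : Set ℂ)) => ‖iteratedDeriv j f z‖) := by
  obtain ⟨g, hg, hg'⟩ := f.2.2.2 j
  obtain ⟨C, hC⟩ := K.2.1.exists_bound_of_continuousOn (hg.mono K.2.2)
  refine ⟨C, ?_⟩
  rintro _ ⟨z, rfl⟩
  have h := hC z z.2.1
  rw [hg' z z.2.2] at h
  exact h

/-- The seminorm `f ↦ sup_{z ∈ K ∩ G} |f^(j)(z)|` on `A^∞(G)`. -/
noncomputable def seminormAt (G : Opens ℂ) (p : ℕ × CompactIn G) : Seminorm ℂ (AInfty G) :=
  Seminorm.ofSMulLE (fun f : AInfty G => ⨆ z : ↥(p.2.1 ∩ (G : Set ℂ)), ‖iteratedDeriv p.1 f z‖)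
    (by
      have : ∀ z : ↥(p.2.1 ∩ (G : Set ℂ)), ‖iteratedDeriv p.1 (0 : AInfty G) z‖ = 0 := by
        intro z
        have h0 : ((0 : AInfty G) : ℂ → ℂ) = fun _ => 0 := rfl
        rw [h0, iteratedDeriv_const]
        simp
      simp [this])
    (by
      intro f g
      rcases isEmpty_or_nonempty ↥(p.2.1 ∩ (G : Set ℂ)) with h | h
      · simp
      refine ciSup_le fun z => ?_
      rw [iteratedDeriv_add' f g z.2.2]
      exact (norm_add_le _ _).trans (add_le_add (le_ciSup (bddAbove_range f _ _) z)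
        (le_ciSup (bddAbove_range g _ _) z)))
    (by
      intro c f
      rcases isEmpty_or_nonempty ↥(p.2.1 ∩ (G : Set ℂ)) with h | h
      · simp
      refine ciSup_le fun z => ?_
      rw [iteratedDeriv_smul' c f z, norm_mul]
      exact mul_le_mul_of_nonneg_left (le_ciSup (bddAbove_range f _ _) z) (norm_nonneg _))

/-- The locally convex topology of `A^∞(G)` defined by the seminorms
`f ↦ sup_{z ∈ K ∩ G} |f^(j)(z)|`, `j ≥ 0`, `K` a compact subset of the closure of `G`. -/
noncomputable instance (G : Opens ℂ) : TopologicalSpace (AInfty G) :=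
  (SeminormFamily.moduleFilterBasis (seminormAt G)).topology

theorem withSeminorms (G : Opens ℂ) : WithSeminorms (seminormAt G) := ⟨rfl⟩

instance (G : Opens ℂ) : IsTopologicalAddGroup (AInfty G) := (withSeminorms G).topologicalAddGroup
instance (G : Opens ℂ) : ContinuousSMul ℂ (AInfty G) := (withSeminorms G).continuousSMul

/-- A regular domain: a nonempty connected open set that is the interior of its closure. -/
def IsRegularDomain (G : Opens ℂ) : Prop :=
  IsConnected (G : Set ℂ) ∧ interior (closure (G : Set ℂ)) = G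

/-- `f` belongs to `H̃_e(G)`: there is no domain `Ω` strictly larger than `G` carrying a
holomorphic function that agrees with `f` on `G`. -/
def NonExtendable (G : Opens ℂ) (f : ℂ → ℂ) : Prop :=
  ¬ ∃ (Ω : Opens ℂ) (F : ℂ → ℂ), IsConnected (Ω : Set ℂ) ∧ G < Ω ∧ DifferentiableOn ℂ F Ω ∧
    ∀ z ∈ G, F z = f z

end Y105.AInf
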