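import Pool.Agent.Y105.BaireAbs

open Set Topology Cardinal TopologicalSpace

namespace Y105.BaireAbs

theorem exists_point {X : Type} [AddCommGroup X] [Module ℂ X] [TopologicalSpace X]
    [IsCompletelyMetrizableSpace X] [IsTopologicalAddGroup X] [ContinuousSMul ℂ X]
    {B : ℕ → Submodule ℂ X} {A : ℕ → ℕ → Set X} (h : Thin B A)
    (P : Set X) (hP : #P < 𝔠)
    (W : Set X) (hW : IsOpen W) (hWne : W.Nonempty) (U : ℕ → Set X) (hU : ∀ n, IsOpen (U n))
    (hUd : ∀ n, Dense (U n)) :
    ∃ x : X, x ∈ W ∧ (∀ n, x ∈ U n) ∧ ∀ j, x ∉ B j ⊔ Submodule.span ℂ P := by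
  obtain ⟨φ, h1, h2, h3⟩ := exists_cantor_li h W hW hWne U hU hUd
  by_contra hcon
  push Not at hcon
  let N : ℕ → Set K := fun j => {β | φ β ∈ B j ⊔ Submodule.span ℂ P}
  have hN : ∀ j, #(N j) ≤ #P := by
    intro j
    let S : Submodule ℂ (X ⧸ B j) := Submodule.span ℂ ((B j).mkQ '' P)
    have hmem : ∀ β : N j, (B j).mkQ (φ β) ∈ S := by
      rintro ⟨β, hβ⟩
      obtain ⟨y, hy, z, hz, hyz⟩ := Submodule.mem_sup.1 (show φ β ∈ B j ⊔ Submodule.span ℂ P from hβ)
      have : (B j).mkQ (φ β) = (B j).mkQ z := by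
        rw [← hyz, map_add]
        have : (B j).mkQ y = 0 := by simpa using hy
        rw [this, zero_add]
      rw [this]
      change (B j).mkQ z ∈ Submodule.span ℂ ((B j).mkQ '' P)
      rw [Submodule.span_image]
      exact Submodule.mem_map_of_mem hz
    let v : N j → S := fun β => ⟨(B j).mkQ (φ β), hmem β⟩
    have hv : LinearIndependent ℂ v := by
      apply LinearIndependent.of_comp S.subtype
      exact (h3 j).comp (fun β : N j => (β : K)) Subtype.val_injective
    calc #(N j) ≤ Module.rank ℂ S := hv.cardinal_le_rank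
      _ ≤ #((B j).mkQ '' P) := rank_span_le _
      _ ≤ #P := Cardinal.mk_image_le
  have hall : (univ : Set K) ⊆ ⋃ j, N j := by
    intro β _
    obtain ⟨j, hj⟩ := hcon (φ β) (h1 β) (fun n => h2 n β)
    exact mem_iUnion.2 ⟨j, hj⟩
  have hK : #K = 𝔠 := by simp [K]
  have hlt : #K < 𝔠 := by
    calc #K = #(univ : Set K) := (Cardinal.mk_univ).symm
      _ ≤ #(⋃ j, N j) := Cardinal.mk_le_mk_of_subset hall
      _ ≤ Cardinal.sum fun j => #(N j) := Cardinal.mk_iUnion_le_sum_mk
      _ ≤ Cardinal.sum fun _ : ℕ => max ℵ₀ #P := Cardinal.sum_le_sum _ _ fun j =>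
          (hN j).trans (le_max_right _ _)
      _ = ℵ₀ * max ℵ₀ #P := by simp
      _ = max ℵ₀ #P := Cardinal.aleph0_mul_eq (le_max_left _ _)
      _ < 𝔠 := max_lt Cardinal.aleph0_lt_continuum hP
  exact absurd hlt (by rw [hK]; exact lt_irrefl _)

/-- tasks -/
def Task (X : Type) [TopologicalSpace X] : Type :=
  {p : Opens X × (ℕ → Opens X) // (p.1 : Set X).Nonempty ∧ ∀ n, Dense (p.2 n : Set X)}

theorem mk_opens_le (X : Type) [TopologicalSpace X] [SecondCountableTopology X] :
    #(Opens X) ≤ 𝔠 := by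
  have hB := countable_countableBasis X
  let f : Opens X → Set (countableBasis X) := fun U => {b | (b : Set X) ⊆ U}
  have hf : Function.Injective f := by
    intro U V hUV
    have key : ∀ U V : Opens X, f U = f V → (U : Set X) ⊆ V := by
      intro U V hUV x hx
      obtain ⟨b, hb, hxb, hbU⟩ := (isBasis_countableBasis X).exists_subset_of_mem_open hx U.2
      have : (⟨b, hb⟩ : countableBasis X) ∈ f V := by rw [← hUV]; exact hbU
      exact this hxb
    exact SetLike.coe_injective (Subset.antisymm (key U V hUV) (key V U hUV.symm))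
  calc #(Opens X) ≤ #(Set (countableBasis X)) := Cardinal.mk_le_of_injective hf
    _ = 2 ^ #(countableBasis X) := Cardinal.mk_set
    _ ≤ 2 ^ ℵ₀ := Cardinal.power_le_power_left two_ne_zero (by
        have := hB.to_subtype
        exact Cardinal.mk_le_aleph0)
    _ = 𝔠 := Cardinal.two_power_aleph0

theorem mk_task_le (X : Type) [TopologicalSpace X] [SecondCountableTopology X] :
    #(Task X) ≤ 𝔠 := by
  have h := mk_opens_le X
  calc #(Task X) ≤ #(Opens X × (ℕ → Opens X)) := Cardinal.mk_subtype_le _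
    _ = #(Opens X) * #(Opens X) ^ ℵ₀ := by simp
    _ ≤ 𝔠 * 𝔠 ^ ℵ₀ := mul_le_mul' h (Cardinal.power_le_power_right h)
    _ = 𝔠 := by simp

theorem exists_family {X : Type} [AddCommGroup X] [Module ℂ X] [TopologicalSpace X]
    [PolishSpace X] [IsTopologicalAddGroup X] [ContinuousSMul ℂ X]
    {B : ℕ → Submodule ℂ X} {A : ℕ → ℕ → Set X} (h : Thin B A) :
    ∃ x : Task X → X, (∀ t, x t ∈ t.1.1 ∧ ∀ n, x t ∈ t.1.2 n) ∧
      ∀ j, LinearIndependent ℂ (fun t => (B j).mkQ (x t)) := by
  classical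
  obtain ⟨r, hwo, hr⟩ := Cardinal.exists_ord_eq (Task X)
  have hcard : ∀ t : Task X, #{s // r s t} < 𝔠 := by
    intro t
    have := Ordinal.typein_lt_type r t
    rw [← hr, Cardinal.lt_ord] at this
    exact lt_of_lt_of_le this (mk_task_le X)
  have hrange : ∀ (t : Task X) (f : ∀ s, r s t → X),
      #(range (fun s : {s // r s t} => f s.1 s.2)) < 𝔠 := fun t f =>
    lt_of_le_of_lt Cardinal.mk_range_le (hcard t)
  let step : ∀ t : Task X, (∀ s, r s t → X) → X := fun t f =>
    (exists_point h (range (fun s : {s // r s t} => f s.1 s.2)) (hrange t f)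
      (t.1.1 : Set X) t.1.1.2 t.2.1 (fun n => (t.1.2 n : Set X)) (fun n => (t.1.2 n).2)
      t.2.2).choose
  let x : Task X → X := hwo.wf.fix step
  have hx : ∀ t, x t = step t (fun s _ => x s) := fun t => hwo.wf.fix_eq step t
  have hspec : ∀ t, x t ∈ (t.1.1 : Set X) ∧ (∀ n, x t ∈ (t.1.2 n : Set X)) ∧
      ∀ j, x t ∉ B j ⊔ Submodule.span ℂ (range (fun s : {s // r s t} => x s.1)) := by
    intro t
    have := (exists_point h (range (fun s : {s // r s t} => x s.1)) (hrange t (fun s _ => x s))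
      (t.1.1 : Set X) t.1.1.2 t.2.1 (fun n => (t.1.2 n : Set X)) (fun n => (t.1.2 n).2)
      t.2.2).choose_spec
    rw [hx t]
    exact this
  refine ⟨x, fun t => ⟨(hspec t).1, (hspec t).2.1⟩, fun j => ?_⟩
  rw [linearIndependent_iff']
  intro S c hc
  by_contra hne
  push Not at hne
  obtain ⟨t0, ht0, hct0⟩ := hne
  let S' := S.filter (fun t => c t ≠ 0)
  have hS' : S'.Nonempty := ⟨t0, Finset.mem_filter.2 ⟨ht0, hct0⟩⟩
  letI : LinearOrder (Task X) := linearOrderOfSTO r
  let tm := S'.max' hS'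
  have htm : tm ∈ S' := Finset.max'_mem _ _
  have htmS : tm ∈ S := (Finset.mem_filter.1 htm).1
  have htmc : c tm ≠ 0 := (Finset.mem_filter.1 htm).2
  have hlt : ∀ s ∈ S', s ≠ tm → r s tm := by
    intro s hs hne
    have : s < tm := lt_of_le_of_ne (Finset.le_max' _ _ hs) hne
    exact this
  have hsum : (∑ s ∈ S, c s • x s) ∈ B j := by
    rw [← Submodule.Quotient.mk_eq_zero, ← Submodule.mkQ_apply, map_sum]
    simpa using hc
  have hsum' : (∑ s ∈ S', c s • x s) ∈ B j := by
    have : (∑ s ∈ S', c s • x s) = ∑ s ∈ S, c s • x s := by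
      refine Finset.sum_subset (Finset.filter_subset _ _) ?_
      intro s hs hs'
      have : c s = 0 := by
        by_contra h0
        exact hs' (Finset.mem_filter.2 ⟨hs, h0⟩)
      rw [this, zero_smul]
    rw [this]; exact hsum
  apply (hspec tm).2.2 j
  set w := ∑ s ∈ S'.erase tm, c s • x s with hw
  have hsplit : (∑ s ∈ S', c s • x s) = c tm • x tm + w := by
    rw [hw]
    exact (Finset.add_sum_erase S' (fun s => c s • x s) htm).symm
  have hxtm : x tm = (c tm)⁻¹ • (∑ s ∈ S', c s • x s) + (-(c tm)⁻¹) • w := by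
    rw [hsplit, smul_add, smul_smul, inv_mul_cancel₀ htmc, one_smul, neg_smul]; abel
  rw [hxtm]
  refine Submodule.add_mem_sup (Submodule.smul_mem _ _ hsum') (Submodule.smul_mem _ _ ?_)
  refine Submodule.sum_mem _ fun s hs => Submodule.smul_mem _ _ (Submodule.subset_span ?_)
  exact ⟨⟨s, hlt s (Finset.mem_of_mem_erase hs) (Finset.ne_of_mem_erase hs)⟩, rfl⟩

/-- **Abstract theorem.** In a Polish topological vector space, a countable family of subspaces
that are countable unions of closed sets and have infinite codimension can be avoided by a dense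
subspace which is a Baire space. -/
theorem exists_dense_baire {X : Type} [AddCommGroup X] [Module ℂ X] [TopologicalSpace X]
    [PolishSpace X] [IsTopologicalAddGroup X] [ContinuousSMul ℂ X]
    {B : ℕ → Submodule ℂ X} {A : ℕ → ℕ → Set X} (h : Thin B A) :
    ∃ E : Submodule ℂ X, Dense (E : Set X) ∧ BaireSpace E ∧ ∀ x ∈ E, x ≠ 0 → ∀ j, x ∉ B j := by
  classical
  obtain ⟨x, hx, hli⟩ := exists_family h
  let E := Submodule.span ℂ (range x)
  have hxE : ∀ t, x t ∈ E := fun t => Submodule.subset_span (mem_range_self t)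
  have hdense : Dense (E : Set X) := by
    rw [dense_iff_inter_open]
    intro W hW hWne
    let t : Task X := ⟨(⟨W, hW⟩, fun _ => ⊤), hWne, fun _ => dense_univ⟩
    exact ⟨x t, (hx t).1, hxE t⟩
  refine ⟨E, hdense, ⟨?_⟩, ?_⟩
  · intro f hf hfd
    -- extend to open sets of X
    have : ∀ n, ∃ V : Set X, IsOpen V ∧ (Subtype.val ⁻¹' V : Set E) = f n := fun n =>
      isOpen_induced_iff.1 (hf n)
    choose V hV hVf using this
    have hVd : ∀ n, Dense (V n) := by
      intro n
      rw [dense_iff_inter_open]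
      intro W hW hWne
      have hWE : (Subtype.val ⁻¹' W : Set E).Nonempty := by
        obtain ⟨y, hy1, hy2⟩ := hdense.inter_open_nonempty W hW hWne
        exact ⟨⟨y, hy2⟩, hy1⟩
      obtain ⟨y, hy1, hy2⟩ := (hfd n).inter_open_nonempty _ (hW.preimage continuous_subtype_val) hWE
      rw [← hVf n] at hy2
      exact ⟨y, hy1, hy2⟩
    rw [dense_iff_inter_open]
    intro O hO hOne
    obtain ⟨W, hW, hWO⟩ := isOpen_induced_iff.1 hO
    have hWne : W.Nonempty := by
      obtain ⟨y, hy⟩ := hOne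
      rw [← hWO] at hy
      exact ⟨y, hy⟩
    let t : Task X := ⟨(⟨W, hW⟩, fun n => ⟨V n, hV n⟩), hWne, fun n => hVd n⟩
    refine ⟨⟨x t, hxE t⟩, ?_, ?_⟩
    · rw [← hWO]; exact (hx t).1
    · refine mem_iInter.2 fun n => ?_
      rw [← hVf n]
      exact (hx t).2 n
  · intro y hy hy0 j hyj
    obtain ⟨c, rfl⟩ := (Finsupp.mem_span_range_iff_exists_finsupp).1 hy
    have h0 : c = 0 := by
      have := (linearIndependent_iff.1 (hli j)) c
      apply this
      rw [Finsupp.linearCombination_apply, Finsupp.sum]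
      have h2 : (B j).mkQ (c.sum fun i a => a • x i) = 0 := by simpa using hyj
      rw [Finsupp.sum, map_sum] at h2
      simpa using h2
    apply hy0
    rw [h0]; simp

end Y105.BaireAbs
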