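import Pool.Agent.Y105.AInfClosed
import Pool.Agent.Y105.BaireRec

open Set Topology TopologicalSpace Filter

namespace Y105.AInf

variable {G : Opens ℂ}

/-- the `k`-th derivative at a point of `G` as a linear functional -/
noncomputable def Dk (k : ℕ) {c : ℂ} (hc : c ∈ G) : AInfty G →ₗ[ℂ] ℂ where
  toFun f := iteratedDeriv k f c
  map_add' f g := iteratedDeriv_add' f g hc k
  map_smul' a f := iteratedDeriv_smul' a f c k

/-- functions whose Taylor coefficients at `c` are `O(r^{-k})` -/
noncomputable def Bsub {c : ℂ} (hc : c ∈ G) {r : ℝ} (hr : 0 < r) : Submodule ℂ (AInfty G) where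
  carrier := {f | ∃ M : ℕ, ∀ k : ℕ, ‖iteratedDeriv k f c‖ * r ^ k ≤ M * k.factorial}
  zero_mem' := by
    refine ⟨0, fun k => ?_⟩
    have : iteratedDeriv k (0 : AInfty G) c = 0 := (Dk k hc).map_zero
    rw [this]; simp
  add_mem' := by
    rintro f g ⟨M, hM⟩ ⟨N, hN⟩
    refine ⟨M + N, fun k => ?_⟩
    rw [iteratedDeriv_add' f g hc k]
    have h1 := norm_add_le (iteratedDeriv k f c) (iteratedDeriv k g c)
    have hrk : 0 ≤ r ^ k := (pow_pos hr k).le
    calc ‖iteratedDeriv k f c + iteratedDeriv k g c‖ * r ^ k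
        ≤ (‖iteratedDeriv k f c‖ + ‖iteratedDeriv k g c‖) * r ^ k :=
          mul_le_mul_of_nonneg_right h1 hrk
      _ = ‖iteratedDeriv k f c‖ * r ^ k + ‖iteratedDeriv k g c‖ * r ^ k := by ring
      _ ≤ M * k.factorial + N * k.factorial := add_le_add (hM k) (hN k)
      _ = ((M + N : ℕ) : ℝ) * k.factorial := by push_cast; ring
  smul_mem' := by
    rintro a f ⟨M, hM⟩
    obtain ⟨N, hN⟩ := exists_nat_ge (‖a‖ * M)
    refine ⟨N, fun k => ?_⟩
    rw [iteratedDeriv_smul' a f c k, norm_mul]
    calc ‖a‖ * ‖iteratedDeriv k f c‖ * r ^ k = ‖a‖ * (‖iteratedDeriv k f c‖ * r ^ k) := by ring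
      _ ≤ ‖a‖ * (M * k.factorial) := mul_le_mul_of_nonneg_left (hM k) (norm_nonneg _)
      _ = (‖a‖ * M) * k.factorial := by ring
      _ ≤ N * k.factorial := mul_le_mul_of_nonneg_right hN (Nat.cast_nonneg _)

/-- the closed pieces -/
def Aset (G : Opens ℂ) (c : ℂ) (r : ℝ) (M : ℕ) : Set (AInfty G) :=
  {f | ∀ k : ℕ, ‖iteratedDeriv k f c‖ * r ^ k ≤ M * k.factorial}

theorem isClosed_Aset {c : ℂ} (hc : c ∈ G) (r : ℝ) (M : ℕ) : IsClosed (Aset G c r M) := by
  have : Aset G c r M = ⋂ k : ℕ, {f : AInfty G | ‖iteratedDeriv k f c‖ * r ^ k ≤ M * k.factorial} := by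
    ext f; simp [Aset]
  rw [this]
  exact isClosed_iInter fun k =>
    isClosed_le ((continuous_iteratedDeriv k hc).norm.mul continuous_const) continuous_const

theorem Bsub_eq {c : ℂ} (hc : c ∈ G) {r : ℝ} (hr : 0 < r) :
    (Bsub hc hr : Set (AInfty G)) = ⋃ M, Aset G c r M := by
  ext f
  simp only [mem_iUnion]
  rfl

/-- bounded exponential sums with large frequencies vanish -/
theorem exp_sum_zero {ι : Type*} (S : Finset ι) (b : ι → ℂ) (hb : ∀ i ∈ S, 1 < ‖b i‖)
    (hinj : Set.InjOn b S) :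
    ∀ (β : ι → ℂ) (C : ℝ), (∀ k : ℕ, ‖∑ i ∈ S, β i * b i ^ k‖ ≤ C) → ∀ i ∈ S, β i = 0 := by
  classical
  induction S using Finset.induction_on with
  | empty => intro β C _ i hi; exact absurd hi (Finset.notMem_empty i)
  | insert a S ha ih =>
    intro β C hC
    have hS : ∀ i ∈ S, β i = 0 := by
      have h1 := ih (fun i hi => hb i (Finset.mem_insert_of_mem hi))
        (hinj.mono (by simp)) (fun i => β i * (b i - b a)) (C + ‖b a‖ * C) (by
          intro k
          have h0 := hC k
          have h2 := hC (k + 1)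
          have e : (∑ i ∈ S, β i * (b i - b a) * b i ^ k)
              = (∑ i ∈ insert a S, β i * b i ^ (k + 1)) - b a * ∑ i ∈ insert a S, β i * b i ^ k := by
            rw [Finset.mul_sum, ← Finset.sum_sub_distrib, Finset.sum_insert ha]
            have : β a * b a ^ (k + 1) - b a * (β a * b a ^ k) = 0 := by ring
            rw [this, zero_add]
            exact Finset.sum_congr rfl fun i _ => by ring
          rw [e]
          refine (norm_sub_le _ _).trans (add_le_add h2 ?_)
          rw [norm_mul]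
          exact mul_le_mul_of_nonneg_left h0 (norm_nonneg _))
      intro i hi
      have h3 := h1 i hi
      rcases mul_eq_zero.1 h3 with h | h
      · exact h
      · exfalso
        have : b i = b a := sub_eq_zero.1 h
        have := hinj (by simp [hi]) (by simp) this
        rw [this] at hi
        exact ha hi
    have ha0 : β a = 0 := by
      by_contra hne
      have hpos : 0 < ‖β a‖ := norm_pos_iff.2 hne
      have hba := hb a (Finset.mem_insert_self a S)
      obtain ⟨k, hk⟩ := pow_unbounded_of_one_lt (C / ‖β a‖) hba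
      have h0 := hC k
      rw [Finset.sum_insert ha, Finset.sum_eq_zero (fun i hi => by rw [hS i hi, zero_mul]),
        add_zero, norm_mul, norm_pow] at h0
      rw [div_lt_iff₀ hpos] at hk
      linarith [mul_comm (‖b a‖ ^ k) ‖β a‖]
    intro i hi
    rcases Finset.mem_insert.1 hi with h | h
    · rw [h]; exact ha0
    · exact hS i h

theorem iteratedDeriv_inv_sub (k : ℕ) (a z : ℂ) :
    iteratedDeriv k (fun w : ℂ => (w - a)⁻¹) z
      = (-1) ^ k * k.factorial * (z - a) ^ (-1 - k : ℤ) := by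
  have h := congrFun (iter_deriv_inv_linear_sub k (1 : ℂ) a) z
  rw [iteratedDeriv_eq_iterate]
  simpa using h

open Classical in
/-- the function `1/(z-a)` for `a` outside the closure of `G` -/
noncomputable def elem (G : Opens ℂ) (a : ℂ) (ha : a ∉ closure (G : Set ℂ)) : AInfty G := by
  refine ⟨fun z => if z ∈ G then (z - a)⁻¹ else 0, fun z hz => by simp only [if_neg hz], ?_, ?_⟩
  · have h1 : DifferentiableOn ℂ (fun z : ℂ => (z - a)⁻¹) G := by
      refine DifferentiableOn.inv (by fun_prop) ?_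
      intro z hz h0
      apply ha
      rw [← sub_eq_zero.1 h0]
      exact subset_closure hz
    refine h1.congr ?_
    intro z hz
    simp only [if_pos (show z ∈ G from hz)]
  · intro j
    refine ⟨fun z => (-1) ^ j * j.factorial * (z - a) ^ (-1 - j : ℤ), ?_, ?_⟩
    · refine ContinuousOn.mul continuousOn_const ?_
      refine ContinuousOn.zpow₀ (by fun_prop) _ ?_
      intro z hz
      left
      intro h0
      apply ha
      rw [← sub_eq_zero.1 h0]
      exact hz
    · intro z hz
      change (-1) ^ j * j.factorial * (z - a) ^ (-1 - j : ℤ) = _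
      rw [← iteratedDeriv_inv_sub]
      exact iteratedDeriv_congr_open (G := G)
        (f := fun w : ℂ => (w - a)⁻¹) (g := fun z => if z ∈ G then (z - a)⁻¹ else 0)
        (fun w hw => by simp only [if_pos hw]) j z hz

theorem iteratedDeriv_elem {a : ℂ} (ha : a ∉ closure (G : Set ℂ)) {c : ℂ} (hc : c ∈ G) (k : ℕ) :
    iteratedDeriv k (elem G a ha) c = (-1) ^ k * k.factorial * (c - a) ^ (-1 - k : ℤ) := by
  classical
  rw [← iteratedDeriv_inv_sub]
  refine iteratedDeriv_congr_open (G := G) ?_ k c hc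
  intro w hw
  change (if w ∈ G then (w - a)⁻¹ else 0) = _
  rw [if_pos hw]

theorem codim_Bsub (hreg : interior (closure (G : Set ℂ)) = G) {c : ℂ} (hc : c ∈ G) {r : ℝ}
    (hr : 0 < r) (hball : ¬ Metric.ball c r ⊆ G) (F : Submodule ℂ (AInfty G))
    (hF : FiniteDimensional ℂ F) : Bsub hc hr ⊔ F ≠ ⊤ := by
  classical
  intro htop
  let T : Set ℂ := Metric.ball c r ∩ (closure (G : Set ℂ))ᶜ
  have hTo : IsOpen T := Metric.isOpen_ball.inter isClosed_closure.isOpen_compl
  have hTne : T.Nonempty := by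
    by_contra hne
    apply hball
    have h1 : Metric.ball c r ⊆ closure (G : Set ℂ) := by
      intro z hz
      by_contra hz'
      exact hne ⟨z, hz, hz'⟩
    have h2 := interior_maximal h1 Metric.isOpen_ball
    rwa [hreg] at h2
  have hTinf : T.Infinite := by
    obtain ⟨z, hz⟩ := hTne
    exact infinite_of_mem_nhds z (hTo.mem_nhds hz)
  have hfd : Module.Finite ℂ (AInfty G ⧸ Bsub hc hr) := by
    have hsurj : Function.Surjective ((Bsub hc hr).mkQ.comp F.subtype) := by
      intro q
      obtain ⟨x, rfl⟩ := (Bsub hc hr).mkQ_surjective q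
      have hx : x ∈ Bsub hc hr ⊔ F := by rw [htop]; trivial
      obtain ⟨y, hy, z, hz, rfl⟩ := Submodule.mem_sup.1 hx
      refine ⟨⟨z, hz⟩, ?_⟩
      have : (Bsub hc hr).mkQ y = 0 := by simpa using hy
      rw [map_add, this, zero_add]
      rfl
    exact Module.Finite.of_surjective _ hsurj
  have hli : LinearIndependent ℂ (fun a : T => (Bsub hc hr).mkQ (elem G a a.2.2)) := by
    rw [linearIndependent_iff']
    intro S g hg
    have hmem : (∑ a ∈ S, g a • elem G a a.2.2) ∈ Bsub hc hr := by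
      rw [← Submodule.Quotient.mk_eq_zero, ← Submodule.mkQ_apply, map_sum]
      simpa using hg
    obtain ⟨M, hM⟩ := hmem
    have hne : ∀ a : T, c - (a : ℂ) ≠ 0 := by
      intro a h0
      apply a.2.2
      rw [← sub_eq_zero.1 h0]
      exact subset_closure hc
    have hsum : ∀ k : ℕ, ‖∑ a ∈ S, (g a / (c - (a : ℂ))) * ((r : ℂ) / (c - (a : ℂ))) ^ k‖ ≤ M := by
      intro k
      have h1 := hM k
      have h2 : iteratedDeriv k (∑ a ∈ S, g a • elem G a a.2.2 : AInfty G) c
          = (-1) ^ k * k.factorial * ∑ a ∈ S, g a * (c - (a : ℂ)) ^ (-1 - k : ℤ) := by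
        have : iteratedDeriv k (∑ a ∈ S, g a • elem G a a.2.2 : AInfty G) c
            = Dk k hc (∑ a ∈ S, g a • elem G a a.2.2) := rfl
        rw [this, map_sum, Finset.mul_sum]
        refine Finset.sum_congr rfl fun a _ => ?_
        rw [map_smul]
        change g a • iteratedDeriv k (elem G a a.2.2) c = _
        rw [iteratedDeriv_elem _ hc, smul_eq_mul]
        ring
      have h3 : (∑ a ∈ S, (g a / (c - (a : ℂ))) * ((r : ℂ) / (c - (a : ℂ))) ^ k)
          = (r : ℂ) ^ k * ∑ a ∈ S, g a * (c - (a : ℂ)) ^ (-1 - k : ℤ) := by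
        rw [Finset.mul_sum]
        refine Finset.sum_congr rfl fun a _ => ?_
        have hz : (c - (a : ℂ)) ^ (-1 - k : ℤ) = ((c - (a : ℂ)) * (c - (a : ℂ)) ^ k)⁻¹ := by
          rw [show (-1 - k : ℤ) = -((k : ℤ) + 1) by ring, zpow_neg, zpow_add_one₀ (hne a),
            zpow_natCast, mul_comm]
        rw [hz, div_pow]
        field_simp
      rw [h3, norm_mul]
      rw [h2] at h1
      rw [norm_mul, norm_mul] at h1
      have hk : (0 : ℝ) < k.factorial := by exact_mod_cast k.factorial_pos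
      have h4 : ‖((-1 : ℂ)) ^ k‖ = 1 := by simp
      have h5 : ‖(k.factorial : ℂ)‖ = k.factorial := by simp
      have h6 : ‖((r : ℂ)) ^ k‖ = r ^ k := by simp [abs_of_pos hr]
      rw [h4, h5, one_mul] at h1
      rw [h6]
      have h7 : (k.factorial : ℝ) * (r ^ k * ‖∑ a ∈ S, g a * (c - (a : ℂ)) ^ (-1 - k : ℤ)‖)
          ≤ k.factorial * M := by linarith
      exact le_of_mul_le_mul_left h7 hk
    have hb : ∀ a ∈ S, 1 < ‖(r : ℂ) / (c - (a : ℂ))‖ := by
      intro a _
      rw [norm_div]
      have h1 : 0 < ‖c - (a : ℂ)‖ := norm_pos_iff.2 (hne a)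
      rw [lt_div_iff₀ h1, one_mul]
      have := a.2.1
      rw [Metric.mem_ball, dist_comm, dist_eq_norm] at this
      simpa [abs_of_pos hr] using this
    have hinj : Set.InjOn (fun a : T => (r : ℂ) / (c - (a : ℂ))) S := by
      intro a _ b _ hab
      simp only at hab
      have hr' : (r : ℂ) ≠ 0 := by exact_mod_cast hr.ne'
      rw [div_eq_div_iff (hne a) (hne b)] at hab
      have := mul_left_cancel₀ hr' hab
      apply Subtype.ext
      exact (sub_right_injective this).symm
    intro a ha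
    have h0 := exp_sum_zero S _ hb hinj _ M hsum a ha
    rcases div_eq_zero_iff.1 h0 with h | h
    · exact h
    · exact absurd h (hne a)
  have hfin := hli.finite
  exact hTinf (Set.toFinite T)

/-- A function outside all the subspaces is not extendable. -/
theorem nonExtendable_of (hGne : (G : Set ℂ).Nonempty) {f : AInfty G}
    (hf : ∀ (c : ℂ) (hc : c ∈ G) (n : ℕ) (hr : (0 : ℝ) < 1 / ((n : ℝ) + 1)),
      c ∈ range (denseSeq ℂ) → ¬ Metric.ball c (1 / ((n : ℝ) + 1)) ⊆ G → f ∉ Bsub hc hr) :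
    NonExtendable G f := by
  rintro ⟨Ω, F, hΩ, hlt, hF, hFf⟩
  have hsub : (G : Set ℂ) ⊆ Ω := hlt.le
  -- a frontier point of `G` in `Ω`
  obtain ⟨z0, hz0Ω, hz0, hz0G⟩ : ∃ z0 ∈ (Ω : Set ℂ), z0 ∈ closure (G : Set ℂ) ∧ z0 ∉ G := by
    by_contra hno
    push Not at hno
    have hcover : (Ω : Set ℂ) ⊆ G ∪ (closure (G : Set ℂ))ᶜ := by
      intro z hz
      by_cases h : z ∈ closure (G : Set ℂ)
      · exact Or.inl (hno z hz h)
      · exact Or.inr h
    have hdis : Disjoint (G : Set ℂ) (closure (G : Set ℂ))ᶜ := by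
      rw [disjoint_compl_right_iff_subset]
      exact subset_closure
    have h1 := hΩ.isPreconnected.subset_left_of_subset_union G.isOpen
      isClosed_closure.isOpen_compl hdis hcover (by
        obtain ⟨z, hz⟩ := hGne
        exact ⟨z, hsub hz, hz⟩)
    exact absurd (SetLike.coe_subset_coe.1 h1) (not_le_of_gt hlt)
  obtain ⟨δ, hδ, hball⟩ := Metric.isOpen_iff.1 Ω.isOpen z0 hz0Ω
  obtain ⟨n, hn⟩ := exists_nat_one_div_lt (half_pos hδ)
  set r : ℝ := 1 / ((n : ℝ) + 1) with hr_def
  have hr : 0 < r := by positivity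
  -- a point of the dense sequence in `G` close to `z0`
  obtain ⟨c, hc, hcG⟩ : ∃ c ∈ range (denseSeq ℂ), c ∈ (G : Set ℂ) ∩ Metric.ball z0 r := by
    have hne : ((G : Set ℂ) ∩ Metric.ball z0 r).Nonempty := by
      rw [inter_comm]
      exact mem_closure_iff.1 hz0 _ Metric.isOpen_ball (Metric.mem_ball_self hr)
    obtain ⟨c, hc1, hc2⟩ := (denseRange_denseSeq ℂ).inter_open_nonempty _
      (G.isOpen.inter Metric.isOpen_ball) hne
    exact ⟨c, hc2, hc1⟩
  obtain ⟨hcG, hcb⟩ := hcG
  have hz0c : z0 ∈ Metric.ball c r := by rwa [Metric.mem_ball, dist_comm]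
  refine hf c hcG n hr hc (fun h => hz0G (h hz0c)) ?_
  have hcl : Metric.closedBall c r ⊆ Ω := by
    intro z hz
    apply hball
    rw [Metric.mem_ball]
    calc dist z z0 ≤ dist z c + dist c z0 := dist_triangle _ _ _
      _ < δ / 2 + δ / 2 := by
          apply add_lt_add
          · exact lt_of_le_of_lt (Metric.mem_closedBall.1 hz) hn
          · exact lt_trans hcb hn
      _ = δ := by ring
  have hFd : DiffContOnCl ℂ F (Metric.ball c r) := by
    apply DifferentiableOn.diffContOnCl
    refine hF.mono ?_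
    exact (Metric.closure_ball_subset_closedBall).trans hcl
  obtain ⟨C, hC⟩ := (isCompact_sphere c r).exists_bound_of_continuousOn
    (hF.continuousOn.mono (Metric.sphere_subset_closedBall.trans hcl))
  obtain ⟨M, hM⟩ := exists_nat_ge C
  refine ⟨M, fun k => ?_⟩
  have h1 := Complex.norm_iteratedDeriv_le_of_forall_mem_sphere_norm_le k hr hFd hC
  have h2 : iteratedDeriv k f c = iteratedDeriv k F c :=
    (iteratedDeriv_congr_open (G := G) hFf k c hcG).symm
  rw [h2]
  rw [le_div_iff₀ (pow_pos hr k)] at h1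
  calc ‖iteratedDeriv k F c‖ * r ^ k ≤ k.factorial * C := h1
    _ ≤ k.factorial * M := mul_le_mul_of_nonneg_left hM (Nat.cast_nonneg _)
    _ = M * k.factorial := mul_comm _ _

/-- The main theorem for domains different from the plane. -/
theorem main_of_ne (hG : IsRegularDomain G) (hne : (G : Set ℂ) ≠ univ) :
    ∃ E : Submodule ℂ (AInfty G), Dense (E : Set (AInfty G)) ∧
      (∀ f ∈ E, f ≠ 0 → NonExtendable G f) ∧ BaireSpace E := by
  classical
  let V : Set (ℕ × ℕ) := {p | denseSeq ℂ p.1 ∈ G ∧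
    ¬ Metric.ball (denseSeq ℂ p.1) (1 / ((p.2 : ℝ) + 1)) ⊆ G}
  have hVne : V.Nonempty := by
    -- a boundary point
    obtain ⟨z0, hz0, hz0G⟩ : ∃ z0 ∈ closure (G : Set ℂ), z0 ∉ G := by
      by_contra hno
      push Not at hno
      have hcl : IsClosed (G : Set ℂ) := isClosed_of_closure_subset hno
      have hclopen : IsClopen (G : Set ℂ) := ⟨hcl, G.isOpen⟩
      rcases isClopen_iff.1 hclopen with h | h
      · have := hG.1.nonempty
        rw [h] at this
        exact this.ne_empty rfl
      · exact hne h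
    have hne' : ((G : Set ℂ) ∩ Metric.ball z0 (1 / (((0 : ℕ) : ℝ) + 1))).Nonempty := by
      rw [inter_comm]
      exact mem_closure_iff.1 hz0 _ Metric.isOpen_ball (Metric.mem_ball_self (by positivity))
    obtain ⟨c, ⟨hc1, hc2⟩, ⟨i, rfl⟩⟩ := (denseRange_denseSeq ℂ).inter_open_nonempty _
      (G.isOpen.inter Metric.isOpen_ball) hne'
    refine ⟨(i, 0), hc1, fun h => hz0G (h ?_)⟩
    rw [Metric.mem_ball, dist_comm]
    exact hc2
  have hVc : Countable V := inferInstance
  have : Nonempty V := hVne.to_subtype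
  obtain ⟨e, he⟩ := exists_surjective_nat V
  let B : ℕ → Submodule ℂ (AInfty G) := fun j =>
    Bsub (r := 1 / (((e j).1.2 : ℝ) + 1)) (e j).2.1 (by positivity)
  let A : ℕ → ℕ → Set (AInfty G) := fun j M =>
    Aset G (denseSeq ℂ (e j).1.1) (1 / (((e j).1.2 : ℝ) + 1)) M
  have hthin : BaireAbs.Thin B A := by
    refine ⟨fun j M => isClosed_Aset (e j).2.1 _ _, fun j => Bsub_eq _ _, fun j F hF => ?_⟩
    exact codim_Bsub hG.2 (e j).2.1 _ (e j).2.2 F hF
  obtain ⟨E, hE1, hE2, hE3⟩ := BaireAbs.exists_dense_baire hthin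
  refine ⟨E, hE1, fun f hf hf0 => ?_, hE2⟩
  apply nonExtendable_of hG.1.nonempty
  rintro c hc n hr ⟨i, rfl⟩ hball
  obtain ⟨j, hj⟩ := he ⟨(i, n), hc, hball⟩
  have := hE3 f hf hf0 j
  simp only [B] at this
  rw [hj] at this
  exact this

/-- **Main theorem.** -/
theorem main (G : Opens ℂ) (hG : IsRegularDomain G) :
    ∃ E : Submodule ℂ (AInfty G), Dense (E : Set (AInfty G)) ∧
      (∀ f ∈ E, f ≠ 0 → NonExtendable G f) ∧ BaireSpace E := by
  by_cases hne : (G : Set ℂ) = univ
  · refine ⟨⊤, dense_univ, fun f _ _ => ?_, ?_⟩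
    · rintro ⟨Ω, F, -, hlt, -⟩
      have : Ω ≤ G := by
        rw [← SetLike.coe_subset_coe, hne]; exact subset_univ _
      exact absurd this (not_le_of_gt hlt)
    · exact (isOpen_univ : IsOpen (univ : Set (AInfty G))).baireSpace
  · exact main_of_ne hG hne

end Y105.AInf
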