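import Pool.Agent.Y105.AInfDefs

open Set Topology TopologicalSpace Filter

namespace Y105.AInf

variable {G : Opens ℂ}

/-- The closure of `G` as a space. -/
abbrev Z (G : Opens ℂ) : Type := ↥(closure (G : Set ℂ))

instance : LocallyCompactSpace (Z G) := (isClosed_closure).isClosedEmbedding_subtypeVal.locallyCompactSpace

instance : PolishSpace C(Z G, ℂ) where

noncomputable def extFun (f : AInfty G) (j : ℕ) : ℂ → ℂ := (f.2.2.2 j).choose

theorem extFun_cont (f : AInfty G) (j : ℕ) : ContinuousOn (extFun f j) (closure (G : Set ℂ)) :=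
  (f.2.2.2 j).choose_spec.1

theorem extFun_eq (f : AInfty G) (j : ℕ) {z : ℂ} (hz : z ∈ G) :
    extFun f j z = iteratedDeriv j f z :=
  (f.2.2.2 j).choose_spec.2 z hz

noncomputable def ext (j : ℕ) (f : AInfty G) : C(Z G, ℂ) :=
  ⟨(closure (G : Set ℂ)).restrict (extFun f j), (extFun_cont f j).restrict⟩

theorem ext_apply (j : ℕ) (f : AInfty G) (w : Z G) (hw : (w : ℂ) ∈ G) :
    ext j f w = iteratedDeriv j f w := extFun_eq f j hw

theorem dense_G (G : Opens ℂ) : Dense {w : Z G | (w : ℂ) ∈ G} := by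
  intro w
  rw [closure_subtype]
  have : (Subtype.val '' {w : Z G | (w : ℂ) ∈ G}) = (G : Set ℂ) := by
    ext z
    constructor
    · rintro ⟨w, hw, rfl⟩; exact hw
    · intro hz; exact ⟨⟨z, subset_closure hz⟩, hz, rfl⟩
  rw [this]
  exact w.2

theorem ext_unique {j : ℕ} {f : AInfty G} {h : C(Z G, ℂ)}
    (hh : ∀ w : Z G, (w : ℂ) ∈ G → h w = iteratedDeriv j f w) : ext j f = h := by
  apply DFunLike.coe_injective
  refine Continuous.ext_on (dense_G G) (ext j f).continuous h.continuous ?_
  intro w hw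
  rw [ext_apply j f w hw, hh w hw]

/-- The embedding into a product of spaces of continuous functions. -/
noncomputable def Phi (G : Opens ℂ) : AInfty G →ₗ[ℂ] (ℕ → C(Z G, ℂ)) where
  toFun f := fun j => ext j f
  map_add' f g := by
    funext j
    apply ext_unique
    intro w hw
    simp [ext_apply, hw, iteratedDeriv_add']
  map_smul' c f := by
    funext j
    apply ext_unique
    intro w hw
    simp [ext_apply, hw, iteratedDeriv_smul']

theorem Phi_apply (f : AInfty G) (j : ℕ) : Phi G f j = ext j f := rfl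

/-- compact exhaustion of the closure -/
def KR (G : Opens ℂ) (R : ℝ) : CompactIn G :=
  ⟨closure (G : Set ℂ) ∩ Metric.closedBall 0 R,
    (isCompact_closedBall _ _).inter_left isClosed_closure, inter_subset_left⟩

theorem seminormAt_apply (p : ℕ × CompactIn G) (f : AInfty G) :
    seminormAt G p f = ⨆ z : ↥(p.2.1 ∩ (G : Set ℂ)), ‖iteratedDeriv p.1 f z‖ := rfl

theorem le_seminormAt (j : ℕ) (K : CompactIn G) (f : AInfty G) {z : ℂ} (hz : z ∈ K.1)
    (hzG : z ∈ G) : ‖iteratedDeriv j f z‖ ≤ seminormAt G (j, K) f :=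
  le_ciSup (bddAbove_range f j K) (⟨z, hz, hzG⟩ : ↥(K.1 ∩ (G : Set ℂ)))

theorem norm_ext_le (j : ℕ) (R : ℝ) (f : AInfty G) (w : Z G) (hw : ‖(w : ℂ)‖ < R) :
    ‖ext j f w‖ ≤ seminormAt G (j, KR G R) f := by
  have hopen : IsOpen {w : Z G | ‖(w : ℂ)‖ < R} :=
    isOpen_lt (continuous_subtype_val.norm) continuous_const
  have hcl : IsClosed {w : Z G | ‖ext j f w‖ ≤ seminormAt G (j, KR G R) f} :=
    isClosed_le (ext j f).continuous.norm continuous_const
  have h1 : w ∈ closure ({w : Z G | ‖(w : ℂ)‖ < R} ∩ {w : Z G | (w : ℂ) ∈ G}) :=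
    (dense_G G).open_subset_closure_inter hopen hw
  refine (closure_minimal ?_ hcl) h1
  rintro v ⟨hv1, hv2⟩
  change ‖ext j f v‖ ≤ _
  rw [ext_apply j f v hv2]
  exact le_seminormAt j _ f ⟨v.2, by simpa using (le_of_lt hv1)⟩ hv2

theorem seminormAt_le (j : ℕ) (K : CompactIn G) (f : AInfty G) {C : ℝ} (hC : 0 ≤ C)
    (h : ∀ w : Z G, (w : ℂ) ∈ K.1 → ‖ext j f w‖ ≤ C) : seminormAt G (j, K) f ≤ C := by
  rw [seminormAt_apply]
  rcases isEmpty_or_nonempty ↥(K.1 ∩ (G : Set ℂ)) with h0 | h0
  · simpa using hC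
  refine ciSup_le fun z => ?_
  have := h ⟨z, subset_closure z.2.2⟩ z.2.1
  rwa [ext_apply _ _ _ z.2.2] at this

theorem continuous_Phi : Continuous (Phi G) := by
  refine continuous_of_continuousAt_zero (Phi G) ?_
  rw [ContinuousAt, map_zero, tendsto_pi_nhds]
  intro j
  rw [ContinuousMap.tendsto_iff_forall_isCompact_tendstoUniformlyOn]
  intro K hK
  rw [Metric.tendstoUniformlyOn_iff]
  intro ε hε
  obtain ⟨R, hR⟩ : ∃ R, ∀ w ∈ K, ‖(w : ℂ)‖ < R := by
    obtain ⟨C, hC⟩ := hK.exists_bound_of_continuousOn (f := fun w : Z G => (w : ℂ))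
      continuous_subtype_val.continuousOn
    exact ⟨C + 1, fun w hw => lt_of_le_of_lt (hC w hw) (lt_add_one C)⟩
  have h := ((withSeminorms G).tendsto_nhds id (0 : AInfty G)).1 tendsto_id (j, KR G R) ε hε
  filter_upwards [h] with f hf w hw
  simp only [id, sub_zero] at hf
  have h2 := norm_ext_le j R f w (hR w hw)
  simp only [Pi.zero_apply, ContinuousMap.zero_apply, dist_zero_left]
  exact lt_of_le_of_lt h2 hf

theorem isInducing_Phi : IsInducing (Phi G) := by
  rw [isInducing_iff_nhds]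
  intro f
  refine le_antisymm (continuous_Phi.tendsto f).le_comap ?_
  have : Tendsto id (comap (Phi G) (𝓝 (Phi G f))) (𝓝 f) := by
    rw [(withSeminorms G).tendsto_nhds]
    rintro ⟨j, K⟩ ε hε
    have h1 : Tendsto (fun g => Phi G g j) (comap (Phi G) (𝓝 (Phi G f))) (𝓝 (Phi G f j)) :=
      ((continuous_apply j).tendsto _).comp tendsto_comap
    rw [ContinuousMap.tendsto_iff_forall_isCompact_tendstoUniformlyOn] at h1
    have hKc : IsCompact {w : Z G | (w : ℂ) ∈ K.1} := by
      have := (isClosed_closure (s := (G : Set ℂ))).isClosedEmbedding_subtypeVal.isCompact_preimage K.2.1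
      exact this
    have h2 := (Metric.tendstoUniformlyOn_iff.1 (h1 _ hKc)) (ε / 2) (half_pos hε)
    filter_upwards [h2] with g hg
    refine lt_of_le_of_lt (seminormAt_le j K _ (half_pos hε).le ?_) (half_lt_self hε)
    intro w hw
    have h3 := hg w hw
    have h4 : ext j (id g - f) w = ext j g w - ext j f w := by
      have := congrFun (map_sub (Phi G) g f) j
      simp only [Phi_apply, Pi.sub_apply] at this
      simp [this]
    rw [h4, ← dist_eq_norm, dist_comm]
    exact le_of_lt h3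
  exact this

theorem injective_Phi : Function.Injective (Phi G) := by
  intro f g h
  apply Subtype.ext
  funext z
  by_cases hz : z ∈ G
  · have := congrFun h 0
    have h2 : ext 0 f ⟨z, subset_closure hz⟩ = ext 0 g ⟨z, subset_closure hz⟩ := by
      rw [Phi_apply, Phi_apply] at this; rw [this]
    rw [ext_apply _ _ _ hz, ext_apply _ _ _ hz] at h2
    simpa using h2
  · rw [f.2.1 z hz, g.2.1 z hz]

end Y105.AInf
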