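import Mathlib

open Set Topology Pointwise

namespace Y105.BaireAbs

variable {X : Type} [AddCommGroup X] [Module ℂ X] [TopologicalSpace X]

/-- A countable family of subspaces, each a countable union of closed sets and of infinite
codimension. -/
structure Thin (B : ℕ → Submodule ℂ X) (A : ℕ → ℕ → Set X) : Prop where
  closed : ∀ j M, IsClosed (A j M)
  union : ∀ j, (B j : Set X) = ⋃ M, A j M
  codim : ∀ j (F : Submodule ℂ X), FiniteDimensional ℂ F → B j ⊔ F ≠ ⊤

variable {B : ℕ → Submodule ℂ X} {A : ℕ → ℕ → Set X}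

theorem Thin.compl_residual [IsTopologicalAddGroup X] [ContinuousSMul ℂ X] [T2Space X]
    (h : Thin B A) (j : ℕ) (F : Submodule ℂ X)
    [FiniteDimensional ℂ F] : ((B j ⊔ F : Submodule ℂ X) : Set X)ᶜ ∈ residual X := by
  classical
  -- basis of F
  let n := Module.finrank ℂ F
  let b : Module.Basis (Fin n) ℂ F := Module.finBasis ℂ F
  let L : (Fin n → ℂ) → X := fun α => ∑ i, α i • (b i : X)
  have hL : Continuous L := by
    refine continuous_finsetSum _ fun i _ => ?_
    exact (continuous_apply i).smul continuous_const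
  have hset : ((B j ⊔ F : Submodule ℂ X) : Set X)
      = ⋃ p : ℕ × ℕ, (A j p.1 + L '' Metric.closedBall 0 (p.2 : ℝ)) := by
    ext x
    simp only [SetLike.mem_coe, Submodule.mem_sup, mem_iUnion, Set.mem_add, mem_image]
    constructor
    · rintro ⟨y, hy, z, hz, rfl⟩
      have hy' : y ∈ ⋃ M, A j M := by rw [← h.union j]; exact hy
      obtain ⟨M, hM⟩ := mem_iUnion.1 hy'
      obtain ⟨N, hN⟩ := exists_nat_ge ‖fun i => b.repr ⟨z, hz⟩ i‖
      refine ⟨(M, N), y, hM, z, ⟨fun i => b.repr ⟨z, hz⟩ i, by simpa using hN, ?_⟩, rfl⟩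
      have h2 : L (fun i => b.repr ⟨z, hz⟩ i)
          = ((∑ i, b.repr ⟨z, hz⟩ i • b i : F) : X) := by
        simp only [L, Submodule.coe_sum, Submodule.coe_smul]
      rw [h2, b.sum_repr]
    · rintro ⟨p, y, hy, z, ⟨α, -, rfl⟩, rfl⟩
      refine ⟨y, ?_, L α, ?_, rfl⟩
      · have : y ∈ (B j : Set X) := by rw [h.union j]; exact mem_iUnion.2 ⟨_, hy⟩
        exact this
      · exact Submodule.sum_mem _ fun i _ => Submodule.smul_mem _ _ (b i).2
  have hclosed : ∀ p : ℕ × ℕ, IsClosed (A j p.1 + L '' Metric.closedBall 0 (p.2 : ℝ)) := by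
    intro p
    exact (h.closed j p.1).add_right_of_isCompact ((isCompact_closedBall _ _).image hL)
  have hint : ∀ p : ℕ × ℕ, interior (A j p.1 + L '' Metric.closedBall 0 (p.2 : ℝ)) = ∅ := by
    intro p
    by_contra hne
    rw [← ne_eq, ← nonempty_iff_ne_empty] at hne
    apply h.codim j F inferInstance
    apply Submodule.eq_top_of_nonempty_interior'
    refine hne.mono (interior_mono ?_)
    rw [hset]
    exact subset_iUnion (fun p : ℕ × ℕ => (A j p.1 + L '' Metric.closedBall 0 (p.2 : ℝ))) p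
  rw [hset, compl_iUnion, countable_iInter_mem]
  intro p
  refine residual_of_dense_open (hclosed p).isOpen_compl ?_
  rw [← interior_eq_empty_iff_dense_compl]
  exact hint p

/-- linear independence modulo a subspace, for finite families -/
def Indep {ι : Type*} [Fintype ι] (B : Submodule ℂ X) (y : ι → X) : Prop :=
  ∀ α : ι → ℂ, (∑ i, α i • y i) ∈ B → α = 0

omit [TopologicalSpace X] in
theorem Indep.cons {n : ℕ} {B : Submodule ℂ X} {x : X} {y : Fin n → X} (hy : Indep B y)
    (hx : x ∉ B ⊔ Submodule.span ℂ (range y)) : Indep B (Fin.cons x y : Fin (n+1) → X) := by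
  intro α hα
  rw [Fin.sum_univ_succ] at hα
  simp only [Fin.cons_zero, Fin.cons_succ] at hα
  have h0 : α 0 = 0 := by
    by_contra h0
    apply hx
    set w := ∑ i : Fin n, α i.succ • y i with hw
    have : x = (α 0)⁻¹ • (α 0 • x + w) + (- (α 0)⁻¹) • w := by
      rw [smul_add, smul_smul, inv_mul_cancel₀ h0, one_smul, neg_smul]; abel
    rw [this]
    refine Submodule.add_mem_sup (Submodule.smul_mem _ _ hα) (Submodule.smul_mem _ _ ?_)
    exact Submodule.sum_mem _ fun i _ => Submodule.smul_mem _ _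
      (Submodule.subset_span (mem_range_self i))
  rw [h0, zero_smul, zero_add] at hα
  have := hy _ hα
  funext i
  refine Fin.cases ?_ ?_ i
  · exact h0
  · intro i; exact congrFun this i

theorem exists_indep_fin [IsTopologicalAddGroup X] [ContinuousSMul ℂ X] [T2Space X] [BaireSpace X]
    (h : Thin B A) (n : ℕ) (O : Fin n → Set X)
    (hO : ∀ i, IsOpen (O i)) (hne : ∀ i, (O i).Nonempty) :
    ∃ y : Fin n → X, (∀ i, y i ∈ O i) ∧ ∀ j, Indep (B j) y := by
  induction n with
  | zero => exact ⟨fun i => i.elim0, fun i => i.elim0, fun j α _ => Subsingleton.elim _ _⟩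
  | succ n ih =>
    obtain ⟨y, hy, hyi⟩ := ih (fun i => O i.succ) (fun i => hO _) (fun i => hne _)
    have : (⋂ j, ((B j ⊔ Submodule.span ℂ (range y) : Submodule ℂ X) : Set X)ᶜ) ∈ residual X := by
      rw [countable_iInter_mem]
      intro j
      have : FiniteDimensional ℂ (Submodule.span ℂ (range y)) :=
        FiniteDimensional.span_of_finite ℂ (finite_range y)
      exact h.compl_residual j _
    obtain ⟨x, hx, hx2⟩ := (dense_of_mem_residual this).inter_open_nonempty _ (hO 0) (hne 0)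
    refine ⟨Fin.cons x y, ?_, ?_⟩
    · intro i
      refine Fin.cases ?_ ?_ i
      · simpa using hx
      · intro i; simpa using hy i
    · intro j
      exact (hyi j).cons (by simpa using mem_iInter.1 hx2 j)

theorem exists_indep [IsTopologicalAddGroup X] [ContinuousSMul ℂ X] [T2Space X] [BaireSpace X]
    (h : Thin B A) {ι : Type} [Fintype ι] (O : ι → Set X)
    (hO : ∀ i, IsOpen (O i)) (hne : ∀ i, (O i).Nonempty) :
    ∃ y : ι → X, (∀ i, y i ∈ O i) ∧ ∀ j, Indep (B j) y := by
  classical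
  let e := Fintype.equivFin ι
  obtain ⟨y, hy, hyi⟩ := exists_indep_fin h (Fintype.card ι) (fun i => O (e.symm i))
    (fun i => hO _) (fun i => hne _)
  refine ⟨fun i => y (e i), fun i => by simpa using hy (e i), ?_⟩
  intro j α hα
  have h2 : (∑ i, α (e.symm i) • y i) ∈ B j := by
    have : (∑ i, α (e.symm i) • y i) = ∑ i, α i • y (e i) := by
      rw [← e.sum_comp]
      simp
    rw [this]; exact hα
  have h3 := hyi j _ h2
  funext i
  have := congrFun h3 (e i)
  simpa using this


/-- The Cantor space. -/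
abbrev K : Type := ℕ → Bool

/-- restriction to the first `n` bits -/
def res (n : ℕ) (β : K) : Fin n → Bool := fun i => β i

theorem continuous_res (n : ℕ) : Continuous (res n) :=
  continuous_pi fun i => continuous_apply _

/-- the locally constant map determined by its values on the cylinders of depth `n` -/
def loc {n : ℕ} (y : (Fin n → Bool) → X) : C(K, X) :=
  ⟨fun β => y (res n β), (continuous_of_discreteTopology (f := y)).comp (continuous_res n)⟩

/-- canonical point of a cylinder -/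
def ext0 {n : ℕ} (s : Fin n → Bool) : K := fun i => if h : i < n then s ⟨i, h⟩ else false

theorem res_ext0 {n : ℕ} (s : Fin n → Bool) : res n (ext0 s) = s := by
  funext i; simp [res, ext0, i.2]

theorem exists_unif {Z : Type*} [PseudoMetricSpace Z] (φ : C(K, Z)) {ε : ℝ} (hε : 0 < ε)
    (m : ℕ) : ∃ n, m ≤ n ∧ ∀ β γ : K, res n β = res n γ → dist (φ β) (φ γ) < ε := by
  have h1 : ∀ β : K, ∃ n, ∀ γ ∈ PiNat.cylinder β n, dist (φ β) (φ γ) < ε / 2 := by
    intro β
    have hopen : IsOpen (φ ⁻¹' Metric.ball (φ β) (ε/2)) :=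
      Metric.isOpen_ball.preimage φ.continuous
    have hmem : β ∈ φ ⁻¹' Metric.ball (φ β) (ε/2) := by simp [hε]
    obtain ⟨V, ⟨x, n, rfl⟩, hxV, hVsub⟩ :=
      (PiNat.isTopologicalBasis_cylinders (fun _ => Bool)).exists_subset_of_mem_open hmem hopen
    refine ⟨n, fun γ hγ => ?_⟩
    have : γ ∈ PiNat.cylinder x n := by
      rw [← PiNat.mem_cylinder_iff_eq.1 hxV]; exact hγ
    have := hVsub this
    rw [mem_preimage, Metric.mem_ball, dist_comm] at this
    exact this
  choose N hN using h1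
  obtain ⟨t, ht⟩ := isCompact_univ.elim_finite_subcover (fun β : K => PiNat.cylinder β (N β))
    (fun β => PiNat.isOpen_cylinder _ _ _)
    (fun β _ => mem_iUnion.2 ⟨β, PiNat.self_mem_cylinder β _⟩)
  refine ⟨max m (t.sup N), le_max_left _ _, fun β γ h => ?_⟩
  obtain ⟨δ, hδt, hδ⟩ : ∃ δ ∈ t, β ∈ PiNat.cylinder δ (N δ) := by
    simpa using ht (mem_univ β)
  have hle : N δ ≤ max m (t.sup N) := (Finset.le_sup hδt).trans (le_max_right _ _)
  have hγ : γ ∈ PiNat.cylinder δ (N δ) := by
    rw [PiNat.mem_cylinder_iff] at hδ ⊢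
    intro i hi
    have := congrFun h ⟨i, lt_of_lt_of_le hi hle⟩
    simp only [res] at this
    rw [← this]; exact hδ i hi
  calc dist (φ β) (φ γ) ≤ dist (φ β) (φ δ) + dist (φ δ) (φ γ) := dist_triangle _ _ _
    _ < ε / 2 + ε / 2 := by
        apply add_lt_add
        · rw [dist_comm]; exact hN δ β hδ
        · exact hN δ γ hγ
    _ = ε := by ring


section cantor

variable [IsTopologicalAddGroup X] [ContinuousSMul ℂ X]

theorem dense_loc {X : Type} [AddCommGroup X] [Module ℂ X] [MetricSpace X] [CompleteSpace X]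
    [IsTopologicalAddGroup X] [ContinuousSMul ℂ X]
    {B : ℕ → Submodule ℂ X} {A : ℕ → ℕ → Set X} (h : Thin B A) (O : Set X) (hO : IsOpen O)
    (hOd : Dense O) (m : ℕ) :
    Dense {φ : C(K, X) | ∃ n, m ≤ n ∧ ∃ y : (Fin n → Bool) → X,
      (∀ s, y s ∈ O) ∧ (∀ j, Indep (B j) y) ∧ φ = loc y} := by
  rw [Metric.dense_iff]
  intro φ r hr
  obtain ⟨n, hmn, hn⟩ := exists_unif φ (half_pos hr) m
  obtain ⟨y, hy, hyi⟩ := exists_indep h (ι := Fin n → Bool)
    (fun s => Metric.ball (φ (ext0 s)) (r/2) ∩ O)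
    (fun s => Metric.isOpen_ball.inter hO)
    (fun s => hOd.inter_open_nonempty _ Metric.isOpen_ball ⟨_, Metric.mem_ball_self (half_pos hr)⟩)
  refine ⟨loc y, ?_, n, hmn, y, fun s => (hy s).2, hyi, rfl⟩
  rw [Metric.mem_ball, ContinuousMap.dist_lt_iff hr]
  intro β
  calc dist (loc y β) (φ β) ≤ dist (y (res n β)) (φ (ext0 (res n β)))
        + dist (φ (ext0 (res n β))) (φ β) := dist_triangle _ _ _
    _ < r / 2 + r / 2 := by
        apply add_lt_add
        · exact (hy (res n β)).1
        · exact hn _ _ (by rw [res_ext0])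
    _ = r := by ring

theorem res_mono {m n : ℕ} (h : m ≤ n) {β γ : K} (hr : res n β = res n γ) :
    res m β = res m γ := by
  funext i
  exact congrFun hr ⟨i, lt_of_lt_of_le i.2 h⟩

theorem isOpen_good {X : Type} [AddCommGroup X] [Module ℂ X] [TopologicalSpace X]
    [IsTopologicalAddGroup X] [ContinuousSMul ℂ X] (A : Set X) (hA : IsClosed A)
    (m : ℕ) (N : ℕ) :
    IsOpen {φ : C(K, X) | ∀ b : (Fin m → Bool) → K, (∀ s, res m (b s) = s) →
      ∀ α : (Fin m → Bool) → ℂ, ‖α‖ ≤ N → 1 ≤ (N : ℝ) * ‖α‖ → (∑ s, α s • φ (b s)) ∉ A} := by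
  rw [← isClosed_compl_iff]
  let P : Set (((Fin m → Bool) → K) × ((Fin m → Bool) → ℂ)) :=
    {q | (∀ s, res m (q.1 s) = s) ∧ ‖q.2‖ ≤ N ∧ 1 ≤ (N : ℝ) * ‖q.2‖}
  have hPc : IsCompact P := by
    have h1 : IsCompact ((univ : Set ((Fin m → Bool) → K)) ×ˢ
        (Metric.closedBall (0 : (Fin m → Bool) → ℂ) N)) :=
      isCompact_univ.prod (isCompact_closedBall _ _)
    refine h1.of_isClosed_subset ?_ ?_
    · have e : P = (⋂ s, {q | res m (q.1 s) = s}) ∩ ({q | ‖q.2‖ ≤ N} ∩
          {q | 1 ≤ (N : ℝ) * ‖q.2‖}) := by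
        ext q; simp [P]
      rw [e]
      refine IsClosed.inter (isClosed_iInter fun s => ?_) (IsClosed.inter ?_ ?_)
      · exact isClosed_eq ((continuous_res m).comp ((continuous_apply s).comp continuous_fst))
          continuous_const
      · exact isClosed_le continuous_snd.norm continuous_const
      · exact isClosed_le continuous_const (continuous_const.mul continuous_snd.norm)
    · rintro ⟨b, α⟩ ⟨-, h2, -⟩
      exact ⟨mem_univ _, by simpa using h2⟩
  have hcont : Continuous (fun z : C(K, X) × P => ∑ s, z.2.1.2 s • z.1 (z.2.1.1 s)) := by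
    refine continuous_finsetSum _ fun s _ => ?_
    refine Continuous.smul ?_ ?_
    · exact (continuous_apply s).comp (continuous_snd.comp (continuous_subtype_val.comp continuous_snd))
    · refine Continuous.eval continuous_fst ?_
      exact (continuous_apply s).comp (continuous_fst.comp (continuous_subtype_val.comp continuous_snd))
  have : CompactSpace P := isCompact_iff_compactSpace.1 hPc
  have hcl := isClosedMap_fst_of_compactSpace (X := C(K, X)) (Y := P) _ (hA.preimage hcont)
  convert hcl using 1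
  ext φ
  simp only [mem_compl_iff, mem_ofPred_eq, mem_image, mem_preimage, Prod.exists, exists_and_right,
    exists_eq_right, Subtype.exists]
  push Not
  constructor
  · rintro ⟨b, hb, α, h1, h2, h3⟩
    exact ⟨b, α, ⟨hb, h1, h2⟩, h3⟩
  · rintro ⟨b, α, ⟨hb, h1, h2⟩, h3⟩
    exact ⟨b, hb, α, h1, h2, h3⟩


theorem exists_cantor_aux {X : Type} [AddCommGroup X] [Module ℂ X] [MetricSpace X]
    [CompleteSpace X] [IsTopologicalAddGroup X] [ContinuousSMul ℂ X]
    {B : ℕ → Submodule ℂ X} {A : ℕ → ℕ → Set X} (h : Thin B A)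
    (W : Set X) (hW : IsOpen W) (hWne : W.Nonempty) (U : ℕ → Set X) (hU : ∀ n, IsOpen (U n))
    (hUd : ∀ n, Dense (U n)) :
    ∃ φ : K → X, (∀ β, φ β ∈ W) ∧ (∀ n β, φ β ∈ U n) ∧
      ∀ (m j : ℕ) (b : (Fin m → Bool) → K), (∀ s, res m (b s) = s) →
        Indep (B j) (fun s => φ (b s)) := by
  have hV : IsOpen {φ : C(K, X) | MapsTo φ univ W} :=
    ContinuousMap.isOpen_setOf_mapsTo isCompact_univ hW
  have hG1 : ∀ n, {φ : C(K, X) | MapsTo φ univ (U n)} ∈ residual C(K, X) := by
    intro n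
    refine residual_of_dense_open (ContinuousMap.isOpen_setOf_mapsTo isCompact_univ (hU n)) ?_
    refine (dense_loc h (U n) (hU n) (hUd n) 0).mono ?_
    rintro _ ⟨k, -, y, hy, -, rfl⟩ β -
    exact hy _
  have hG2 : ∀ p : (ℕ × ℕ) × (ℕ × ℕ), {φ : C(K, X) | ∀ b : (Fin p.1.1 → Bool) → K,
      (∀ s, res p.1.1 (b s) = s) →
      ∀ α : (Fin p.1.1 → Bool) → ℂ, ‖α‖ ≤ p.2.1 → 1 ≤ (p.2.1 : ℝ) * ‖α‖ →
        (∑ s, α s • φ (b s)) ∉ A p.1.2 p.2.2} ∈ residual C(K, X) := by
    rintro ⟨⟨m, j⟩, ⟨N, M⟩⟩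
    refine residual_of_dense_open (isOpen_good _ (h.closed _ _) _ _) ?_
    refine (dense_loc h univ isOpen_univ dense_univ m).mono ?_
    rintro _ ⟨k, hk, y, -, hy, rfl⟩ b hb α - hα hmem
    have hmemB : (∑ s, α s • (loc y : C(K, X)) (b s)) ∈ B j := by
      have : (∑ s, α s • (loc y : C(K, X)) (b s)) ∈ (B j : Set X) := by
        rw [h.union j]; exact mem_iUnion.2 ⟨M, hmem⟩
      exact this
    classical
    have hinj : Function.Injective (fun s => res k (b s)) := by
      intro s t hst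
      rw [← hb s, ← hb t]
      exact res_mono hk hst
    have hsum : (∑ s, α s • (loc y : C(K, X)) (b s))
        = ∑ t : Fin k → Bool, (∑ s, if res k (b s) = t then α s else 0) • y t := by
      simp_rw [Finset.sum_smul]
      rw [Finset.sum_comm]
      refine Finset.sum_congr rfl fun s _ => ?_
      simp [ite_smul, loc]
    rw [hsum] at hmemB
    have h0 := hy j _ hmemB
    have hα0 : α = 0 := by
      funext s
      have := congrFun h0 (res k (b s))
      simp only [Pi.zero_apply] at this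
      rw [Finset.sum_eq_single s] at this
      · simpa using this
      · intro s' _ hs'
        rw [if_neg]
        intro h'
        exact hs' (hinj h')
      · intro h'; exact absurd (Finset.mem_univ _) h'
    rw [hα0] at hα
    norm_num at hα
  have hall : ((⋂ n, {φ : C(K, X) | MapsTo φ univ (U n)}) ∩
      ⋂ p : (ℕ × ℕ) × (ℕ × ℕ), {φ : C(K, X) | ∀ b : (Fin p.1.1 → Bool) → K,
      (∀ s, res p.1.1 (b s) = s) →
      ∀ α : (Fin p.1.1 → Bool) → ℂ, ‖α‖ ≤ p.2.1 → 1 ≤ (p.2.1 : ℝ) * ‖α‖ →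
        (∑ s, α s • φ (b s)) ∉ A p.1.2 p.2.2}) ∈ residual C(K, X) :=
    Filter.inter_mem ((countable_iInter_mem).2 hG1) ((countable_iInter_mem).2 hG2)
  obtain ⟨w, hw⟩ := hWne
  obtain ⟨φ, hφW, hφ⟩ := (dense_of_mem_residual hall).inter_open_nonempty _ hV
    ⟨ContinuousMap.const _ w, fun _ _ => hw⟩
  refine ⟨φ, fun β => hφW (mem_univ β), fun n β => mem_iInter.1 hφ.1 n (mem_univ β), ?_⟩
  intro m j b hb α hα
  by_contra hne
  have hpos : 0 < ‖α‖ := norm_pos_iff.2 hne
  have hα' : (∑ s, α s • φ (b s)) ∈ ⋃ M, A j M := by rw [← h.union j]; exact hα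
  obtain ⟨M, hM⟩ := mem_iUnion.1 hα'
  obtain ⟨N, hN⟩ := exists_nat_ge (max ‖α‖ (1 / ‖α‖))
  have h1 : ‖α‖ ≤ N := (le_max_left _ _).trans hN
  have h2 : 1 / ‖α‖ ≤ N := (le_max_right _ _).trans hN
  have h3 : 1 ≤ (N : ℝ) * ‖α‖ := by
    rwa [div_le_iff₀ hpos] at h2
  exact mem_iInter.1 hφ.2 ((m, j), (N, M)) b hb α h1 h3 hM

theorem exists_cantor {X : Type} [AddCommGroup X] [Module ℂ X] [TopologicalSpace X]
    [TopologicalSpace.IsCompletelyMetrizableSpace X] [IsTopologicalAddGroup X] [ContinuousSMul ℂ X]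
    {B : ℕ → Submodule ℂ X} {A : ℕ → ℕ → Set X} (h : Thin B A)
    (W : Set X) (hW : IsOpen W) (hWne : W.Nonempty) (U : ℕ → Set X) (hU : ∀ n, IsOpen (U n))
    (hUd : ∀ n, Dense (U n)) :
    ∃ φ : K → X, (∀ β, φ β ∈ W) ∧ (∀ n β, φ β ∈ U n) ∧
      ∀ (m j : ℕ) (b : (Fin m → Bool) → K), (∀ s, res m (b s) = s) →
        Indep (B j) (fun s => φ (b s)) := by
  letI := TopologicalSpace.upgradeIsCompletelyMetrizable X
  exact exists_cantor_aux h W hW hWne U hU hUd

/-- A Cantor family inside a set of second category that is linearly independent modulo every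
member of the family of thin subspaces. -/
theorem exists_cantor_li {X : Type} [AddCommGroup X] [Module ℂ X] [TopologicalSpace X]
    [TopologicalSpace.IsCompletelyMetrizableSpace X] [IsTopologicalAddGroup X] [ContinuousSMul ℂ X]
    {B : ℕ → Submodule ℂ X} {A : ℕ → ℕ → Set X} (h : Thin B A)
    (W : Set X) (hW : IsOpen W) (hWne : W.Nonempty) (U : ℕ → Set X) (hU : ∀ n, IsOpen (U n))
    (hUd : ∀ n, Dense (U n)) :
    ∃ φ : K → X, (∀ β, φ β ∈ W) ∧ (∀ n β, φ β ∈ U n) ∧
      ∀ j, LinearIndependent ℂ (fun β => (B j).mkQ (φ β)) := by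
  classical
  obtain ⟨φ, h1, h2, h3⟩ := exists_cantor h W hW hWne U hU hUd
  refine ⟨φ, h1, h2, fun j => ?_⟩
  rw [linearIndependent_iff']
  intro S c hc β hβ
  -- choose m separating the points of S
  have hsep : ∃ m, ∀ x ∈ S, ∀ y ∈ S, res m x = res m y → x = y := by
    have : ∀ p : K × K, ∃ m, res m p.1 = res m p.2 → p.1 = p.2 := by
      rintro ⟨x, y⟩
      by_cases hxy : x = y
      · exact ⟨0, fun _ => hxy⟩
      · obtain ⟨i, hi⟩ := Function.ne_iff.1 hxy
        refine ⟨i + 1, fun hr => absurd (congrFun hr ⟨i, Nat.lt_succ_self i⟩) hi⟩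
    choose f hf using this
    refine ⟨(S ×ˢ S).sup f, fun x hx y hy hr => ?_⟩
    refine hf (x, y) (res_mono (Finset.le_sup (f := f) (Finset.mk_mem_product hx hy)) hr)
  obtain ⟨m, hm⟩ := hsep
  let b : (Fin m → Bool) → K := fun s => if hs : ∃ x ∈ S, res m x = s then hs.choose else ext0 s
  have hb : ∀ s, res m (b s) = s := by
    intro s
    by_cases hs : ∃ x ∈ S, res m x = s
    · simp only [b, dif_pos hs]; exact hs.choose_spec.2
    · simp only [b, dif_neg hs]; exact res_ext0 s
  have hbS : ∀ x ∈ S, b (res m x) = x := by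
    intro x hx
    have hs : ∃ y ∈ S, res m y = res m x := ⟨x, hx, rfl⟩
    simp only [b, dif_pos hs]
    exact hm _ hs.choose_spec.1 _ hx hs.choose_spec.2
  let α : (Fin m → Bool) → ℂ := fun s => if (b s ∈ S) then c (b s) else 0
  have hmem : (∑ s, α s • φ (b s)) ∈ B j := by
    have e : (∑ s, α s • φ (b s)) = ∑ x ∈ S, c x • φ x := by
      symm
      refine Finset.sum_of_injOn (fun x => res m x) ?_ ?_ ?_ ?_
      · intro x hx y hy hxy; exact hm x hx y hy hxy
      · intro x hx; exact Finset.mem_coe.2 (Finset.mem_univ _)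
      · intro s _ hs
        have : b s ∉ S := fun hbs => hs ⟨b s, hbs, hb s⟩
        simp [α, this]
      · intro x hx
        simp only [α, hbS x hx, if_pos hx]
    rw [e, ← Submodule.Quotient.mk_eq_zero, ← Submodule.mkQ_apply, map_sum]
    simpa using hc
  have := congrFun (h3 m j b hb α hmem) (res m β)
  simpa [α, hbS β hβ, hβ] using this

end cantor

end Y105.BaireAbs
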