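import Mathlib

open Set Topology Filter

namespace Y105.Biorth

variable {F : Type*} [NormedAddCommGroup F] [NormedSpace ℝ F]

theorem exists_next (hF : ¬ FiniteDimensional ℝ F) (s : Finset (F × (F →L[ℝ] ℝ))) :
    ∃ y : F × (F →L[ℝ] ℝ), y.2 y.1 = 1 ∧ ∀ x ∈ s, x.2 y.1 = 0 ∧ y.2 x.1 = 0 := by
  classical
  let L : F →ₗ[ℝ] (s → ℝ) := LinearMap.pi fun x : s => (x.1.2 : F →L[ℝ] ℝ).toLinearMap
  let V : Submodule ℝ F := Submodule.span ℝ ((fun x : F × (F →L[ℝ] ℝ) => x.1) '' (s : Set _))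
  have hV : FiniteDimensional ℝ V :=
    FiniteDimensional.span_of_finite ℝ (s.finite_toSet.image _)
  have hnot : ¬ LinearMap.ker L ≤ V := by
    intro hle
    apply hF
    have h1 : Module.Finite ℝ (LinearMap.ker L) := Submodule.finiteDimensional_of_le hle
    have h2 : Module.Finite ℝ (F ⧸ LinearMap.ker L) :=
      Module.Finite.equiv (L.quotKerEquivRange).symm
    exact Module.Finite.of_submodule_quotient (LinearMap.ker L)
  obtain ⟨y, hyL, hyV⟩ := SetLike.not_le_iff_exists.1 hnot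
  obtain ⟨P, hP⟩ := Submodule.ClosedComplemented.of_finiteDimensional (𝕜 := ℝ) V
  have hne : y - P y ≠ 0 := by
    intro h
    apply hyV
    rw [sub_eq_zero.1 h]
    exact (P y).2
  obtain ⟨χ, hχ⟩ := SeparatingDual.exists_eq_one (R := ℝ) hne
  refine ⟨(y, χ.comp (ContinuousLinearMap.id ℝ F - V.subtypeL.comp P)), ?_, ?_⟩
  · simpa using hχ
  · intro x hx
    refine ⟨?_, ?_⟩
    · have := congrFun (LinearMap.mem_ker.1 hyL) ⟨x, hx⟩
      simpa [L] using this
    · have hxV : x.1 ∈ V := Submodule.subset_span ⟨x, hx, rfl⟩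
      have := hP ⟨x.1, hxV⟩
      simp only at this
      simp [this]

theorem exists_biorth (hF : ¬ FiniteDimensional ℝ F) :
    ∃ (u : ℕ → F) (φ : ℕ → (F →L[ℝ] ℝ)), (∀ i, φ i (u i) = 1) ∧ ∀ i j, i ≠ j → φ i (u j) = 0 := by
  classical
  obtain ⟨f, hf1, hf2⟩ := exists_seq_of_forall_finset_exists
    (fun y : F × (F →L[ℝ] ℝ) => y.2 y.1 = 1)
    (fun x y : F × (F →L[ℝ] ℝ) => x.2 y.1 = 0 ∧ y.2 x.1 = 0)
    (fun s _ => exists_next hF s)
  refine ⟨fun i => (f i).1, fun i => (f i).2, hf1, fun i j hij => ?_⟩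
  rcases lt_or_gt_of_ne hij with h | h
  · exact (hf2 i j h).1
  · exact (hf2 j i h).2

/-- vectors with a prescribed nonvanishing pattern avoiding countably many lines -/
theorem exists_vector [CompleteSpace F] (u : ℕ → F) (φ : ℕ → (F →L[ℝ] ℝ))
    (h1 : ∀ i, φ i (u i) = 1) (h2 : ∀ i j, i ≠ j → φ i (u j) = 0) (X : Set ℕ) {p₁ p₂ : ℕ}
    (hp₁ : p₁ ∈ X) (hp₂ : p₂ ∈ X) (hne : p₁ ≠ p₂) {Q : Set F} (hQ : Q.Countable) :
    ∃ z : F, (∀ i, φ i z ≠ 0 ↔ i ∈ X) ∧ ∀ a ∈ Q, ∀ b ∈ Q, ∀ τ : ℝ, z ≠ a + τ • (b - a) := by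
  classical
  let c : ℕ → ℝ := fun i => if i ∈ X ∧ i ≠ p₁ ∧ i ≠ p₂ then (1 / 2) ^ i / (1 + ‖u i‖) else 0
  have hc0 : ∀ i, 0 ≤ c i := by
    intro i
    simp only [c]
    split_ifs
    · positivity
    · exact le_rfl
  have hcu : ∀ i, ‖c i • u i‖ ≤ (1 / 2 : ℝ) ^ i := by
    intro i
    rw [norm_smul, Real.norm_eq_abs, abs_of_nonneg (hc0 i)]
    simp only [c]
    split_ifs
    · rw [div_mul_eq_mul_div, div_le_iff₀ (by positivity)]
      refine mul_le_mul_of_nonneg_left ?_ (by positivity)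
      linarith
    · rw [zero_mul]; positivity
  have hsum : Summable (fun i => c i • u i) :=
    Summable.of_norm_bounded summable_geometric_two hcu
  let z0 : F := ∑' i, c i • u i
  have hz0 : ∀ j, φ j z0 = c j := by
    intro j
    have : φ j z0 = ∑' i, φ j (c i • u i) := (φ j).map_tsum hsum
    rw [this, tsum_eq_single j]
    · rw [map_smul, h1, smul_eq_mul, mul_one]
    · intro i hi
      rw [map_smul, h2 j i (Ne.symm hi), smul_zero]
  let z : ℝ → F := fun t => z0 + t • u p₁ + (t ^ 2) • u p₂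
  have hz : ∀ t j, φ j (z t) = c j + t * (if j = p₁ then 1 else 0)
      + t ^ 2 * (if j = p₂ then 1 else 0) := by
    intro t j
    simp only [z, map_add, map_smul, hz0, smul_eq_mul]
    congr 1
    · congr 1
      split_ifs with h
      · rw [h, h1]
      · rw [h2 _ _ h]
    · split_ifs with h
      · rw [h, h1]
      · rw [h2 _ _ h]
  have hcp₁ : c p₁ = 0 := by simp [c]
  have hcp₂ : c p₂ = 0 := by simp [c]
  have hz₁ : ∀ t, φ p₁ (z t) = t := by
    intro t; rw [hz, hcp₁, if_pos rfl, if_neg hne]; ring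
  have hz₂ : ∀ t, φ p₂ (z t) = t ^ 2 := by
    intro t; rw [hz, hcp₂, if_pos rfl, if_neg hne.symm]; ring
  -- the bad parameters
  have hbad : ∀ a b : F, {t : ℝ | ∃ τ : ℝ, z t = a + τ • (b - a)}.Countable := by
    intro a b
    by_contra hnc
    have hinf : {t : ℝ | ∃ τ : ℝ, z t = a + τ • (b - a)}.Infinite := fun hfin => hnc hfin.countable
    obtain ⟨T, hT, hcard⟩ := hinf.exists_subset_card_eq 3
    obtain ⟨x, y, w, hxy, hxw, hyw, rfl⟩ := Finset.card_eq_three.1 hcard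
    have hx : x ∈ {t : ℝ | ∃ τ : ℝ, z t = a + τ • (b - a)} := hT (by simp)
    have hy : y ∈ {t : ℝ | ∃ τ : ℝ, z t = a + τ • (b - a)} := hT (by simp)
    have hw : w ∈ {t : ℝ | ∃ τ : ℝ, z t = a + τ • (b - a)} := hT (by simp)
    obtain ⟨τx, hx⟩ := hx
    obtain ⟨τy, hy⟩ := hy
    obtain ⟨τw, hw⟩ := hw
    have e1x := congrArg (φ p₁) hx
    have e1y := congrArg (φ p₁) hy
    have e1w := congrArg (φ p₁) hw
    have e2x := congrArg (φ p₂) hx
    have e2y := congrArg (φ p₂) hy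
    have e2w := congrArg (φ p₂) hw
    rw [hz₁, map_add, map_smul, smul_eq_mul] at e1x e1y e1w
    rw [hz₂, map_add, map_smul, smul_eq_mul] at e2x e2y e2w
    set B₁ := φ p₁ (b - a)
    set B₂ := φ p₂ (b - a)
    -- x - y = (τx - τy) B₁ etc.
    have hB : B₁ ≠ 0 := by
      intro h0
      apply hxy
      rw [e1x, e1y, h0]; ring
    have d1 : x - y = (τx - τy) * B₁ := by rw [e1x, e1y]; ring
    have d2 : x ^ 2 - y ^ 2 = (τx - τy) * B₂ := by rw [e2x, e2y]; ring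
    have d3 : x - w = (τx - τw) * B₁ := by rw [e1x, e1w]; ring
    have d4 : x ^ 2 - w ^ 2 = (τx - τw) * B₂ := by rw [e2x, e2w]; ring
    have s1 : (x + y) * B₁ = B₂ := by
      have h3 : (x - y) * ((x + y) * B₁) = (x - y) * B₂ := by
        have : (x - y) * ((x + y) * B₁) = (x ^ 2 - y ^ 2) * B₁ := by ring
        rw [this, d2]
        calc (τx - τy) * B₂ * B₁ = ((τx - τy) * B₁) * B₂ := by ring
          _ = (x - y) * B₂ := by rw [← d1]
      exact mul_left_cancel₀ (sub_ne_zero.2 hxy) h3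
    have s2 : (x + w) * B₁ = B₂ := by
      have h3 : (x - w) * ((x + w) * B₁) = (x - w) * B₂ := by
        have : (x - w) * ((x + w) * B₁) = (x ^ 2 - w ^ 2) * B₁ := by ring
        rw [this, d4]
        calc (τx - τw) * B₂ * B₁ = ((τx - τw) * B₁) * B₂ := by ring
          _ = (x - w) * B₂ := by rw [← d3]
      exact mul_left_cancel₀ (sub_ne_zero.2 hxw) h3
    have s3 : x + y = x + w := mul_right_cancel₀ hB (s1.trans s2.symm)
    exact hyw (add_left_cancel s3)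
  have hall : (⋃ a ∈ Q, ⋃ b ∈ Q, {t : ℝ | ∃ τ : ℝ, z t = a + τ • (b - a)}).Countable :=
    hQ.biUnion fun a _ => hQ.biUnion fun b _ => hbad a b
  obtain ⟨t, ht1, ht2⟩ : ∃ t ∈ Ioo (0 : ℝ) 1,
      t ∉ ⋃ a ∈ Q, ⋃ b ∈ Q, {t : ℝ | ∃ τ : ℝ, z t = a + τ • (b - a)} := by
    by_contra hcon
    push Not at hcon
    have : (Ioo (0 : ℝ) 1).Countable := hall.mono hcon
    rw [Cardinal.Real.Ioo_countable_iff] at this
    linarith
  refine ⟨z t, fun i => ?_, fun a ha b hb τ hτ => ?_⟩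
  · rw [hz]
    have ht0 : 0 < t := ht1.1
    constructor
    · intro h
      by_contra hi
      apply h
      have e1 : i ≠ p₁ := fun h => hi (h ▸ hp₁)
      have e2 : i ≠ p₂ := fun h => hi (h ▸ hp₂)
      simp [c, hi, e1, e2]
    · intro hi
      by_cases e1 : i = p₁
      · rw [e1, hcp₁, if_pos rfl, if_neg hne]
        simp [ht0.ne']
      by_cases e2 : i = p₂
      · rw [e2, hcp₂, if_pos rfl, if_neg hne.symm]
        simp [ht0.ne']
      simp only [c, if_pos (show i ∈ X ∧ i ≠ p₁ ∧ i ≠ p₂ from ⟨hi, e1, e2⟩), if_neg e1, if_neg e2]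
      have : 0 < (1 / 2 : ℝ) ^ i / (1 + ‖u i‖) := by positivity
      simp only [mul_zero, add_zero]
      exact this.ne'
  · apply ht2
    exact mem_iUnion₂.2 ⟨a, ha, mem_iUnion₂.2 ⟨b, hb, τ, hτ⟩⟩

end Y105.Biorth
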