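import Pool.Agent.Y105.Tame

open Set Topology Filter
open scoped ContDiff ENNReal

namespace Y105.Tame

variable {Γ : Type*} {p : ℝ≥0∞} [hp1 : Fact (1 ≤ p)]
variable {F : Type*} [NormedAddCommGroup F] [NormedSpace ℝ F]

theorem toReal_pos' (hp : p ≠ ⊤) : 0 < p.toReal :=
  ENNReal.toReal_pos (zero_lt_one.trans_le hp1.out).ne' hp

theorem card_le (hp : p ≠ ⊤) (x : lp (fun _ : Γ => ℝ) p) {a : ℝ} (ha : 0 < a) (T : Finset Γ)
    (hT : ∀ i ∈ T, a ≤ |x i|) : (T.card : ℝ) ≤ (‖x‖ / a) ^ p.toReal := by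
  have hp0 := toReal_pos' hp
  have h1 := lp.sum_rpow_le_norm_rpow hp0 x T
  have h2 : ∑ i ∈ T, a ^ p.toReal ≤ ∑ i ∈ T, ‖x i‖ ^ p.toReal := by
    refine Finset.sum_le_sum fun i hi => ?_
    exact Real.rpow_le_rpow ha.le (hT i hi) hp0.le
  rw [Finset.sum_const, nsmul_eq_mul] at h2
  rw [Real.div_rpow (norm_nonneg _) ha.le, le_div_iff₀ (Real.rpow_pos_of_pos ha _)]
  exact h2.trans h1

theorem finite_ge (hp : p ≠ ⊤) (x : lp (fun _ : Γ => ℝ) p) {a : ℝ} (ha : 0 < a) :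
    {i | a ≤ |x i|}.Finite := by
  by_contra hinf
  obtain ⟨N, hN⟩ := exists_nat_gt ((‖x‖ / a) ^ p.toReal)
  obtain ⟨T, hT, hcard⟩ := Set.Infinite.exists_subset_card_eq hinf N
  have := card_le hp x ha T (fun i hi => hT hi)
  rw [hcard] at this
  exact absurd this (not_le_of_gt hN)

variable {ι : Type*}

/-- the active indices -/
theorem finite_act (hp : p ≠ ⊤) {e : ι → Γ} (he : Function.Injective e)
    (x : lp (fun _ : Γ => ℝ) p) {a : ℝ} (ha : 0 < a) : {i | a ≤ |x (e i)|}.Finite :=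
  Set.Finite.preimage (f := e) he.injOn (finite_ge hp x ha)

theorem card_act (hp : p ≠ ⊤) {e : ι → Γ} (he : Function.Injective e)
    (x : lp (fun _ : Γ => ℝ) p) {a : ℝ} (ha : 0 < a) :
    (((finite_act hp he x ha).toFinset).card : ℝ) ≤ (‖x‖ / a) ^ p.toReal := by
  classical
  rw [← Finset.card_image_of_injective _ he]
  apply card_le hp x ha
  intro i hi
  obtain ⟨k, hk, rfl⟩ := Finset.mem_image.1 hi
  simpa using hk

omit [NormedSpace ℝ F] in
theorem locSum_eventually (hp : p ≠ ⊤) {e : ι → Γ} (he : Function.Injective e) {a : ℝ} (ha : 0 < a)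
    {f : ι → lp (fun _ : Γ => ℝ) p → F}
    (hsupp : ∀ i (x : lp (fun _ : Γ => ℝ) p), |x (e i)| < a → f i x = 0)
    (x : lp (fun _ : Γ => ℝ) p) :
    (fun y => ∑' i, f i y) =ᶠ[𝓝 x]
      fun y => ∑ i ∈ (finite_act hp he x (half_pos ha)).toFinset, f i y := by
  filter_upwards [Metric.ball_mem_nhds x (half_pos ha)] with y hy
  refine tsum_eq_sum ?_
  intro i hi
  apply hsupp
  have h1 : |x (e i)| < a / 2 := by
    by_contra h
    exact hi (by simpa using h)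
  have h2 : |y (e i) - x (e i)| ≤ ‖y - x‖ := by
    have := lp.norm_apply_le_norm (zero_lt_one.trans_le hp1.out).ne' (y - x) (e i)
    simpa using this
  have h3 : ‖y - x‖ < a / 2 := by rwa [← dist_eq_norm]
  calc |y (e i)| = |x (e i) + (y (e i) - x (e i))| := by ring_nf
    _ ≤ |x (e i)| + |y (e i) - x (e i)| := abs_add_le _ _
    _ < a / 2 + a / 2 := by linarith
    _ = a := by ring

theorem locSum_contDiff (hp : p ≠ ⊤) {e : ι → Γ} (he : Function.Injective e) {a : ℝ} (ha : 0 < a)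
    {f : ι → lp (fun _ : Γ => ℝ) p → F} (hf : ∀ i, ContDiff ℝ ∞ (f i))
    (hsupp : ∀ i (x : lp (fun _ : Γ => ℝ) p), |x (e i)| < a → f i x = 0) :
    ContDiff ℝ ∞ (fun y => ∑' i, f i y) := by
  rw [contDiff_iff_contDiffAt]
  intro x
  refine ContDiffAt.congr_of_eventuallyEq ?_ (locSum_eventually hp he ha hsupp x)
  exact ContDiffAt.sum fun i _ => (hf i).contDiffAt

theorem locSum_bound (hp : p ≠ ⊤) {e : ι → Γ} (he : Function.Injective e) {a : ℝ} (ha : 0 < a)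
    {f : ι → lp (fun _ : Γ => ℝ) p → F} (hf : ∀ i, ContDiff ℝ ∞ (f i))
    (hsupp : ∀ i (x : lp (fun _ : Γ => ℝ) p), |x (e i)| < a → f i x = 0)
    (j : ℕ) (x : lp (fun _ : Γ => ℝ) p) {M : ℝ} (hM0 : 0 ≤ M)
    (hM : ∀ i, ‖iteratedFDeriv ℝ j (f i) x‖ ≤ M) :
    ‖iteratedFDeriv ℝ j (fun y => ∑' i, f i y) x‖ ≤ (‖x‖ / (a / 2)) ^ p.toReal * M := by
  rw [((locSum_eventually hp he ha hsupp x).iteratedFDeriv ℝ j).eq_of_nhds]
  rw [iteratedFDeriv_fun_sum_apply (fun i _ => (hf i).contDiffAt.of_le (by exact_mod_cast le_top))]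
  refine (norm_sum_le _ _).trans ?_
  refine (Finset.sum_le_sum fun i _ => hM i).trans ?_
  rw [Finset.sum_const, nsmul_eq_mul]
  exact mul_le_mul_of_nonneg_right (card_act hp he x (half_pos ha)) hM0

end Y105.Tame
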