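import Mathlib

open Set Topology Filter Cardinal

universe u

namespace Y105.Rel

/-- A type of cardinality `ℵ_1` carries a well order whose initial segments are countable. -/
theorem exists_wo (Γ : Type u) (hΓ : #Γ = ℵ_ 1) :
    ∃ r : Γ → Γ → Prop, IsWellOrder Γ r ∧ ∀ a, {b | r b a}.Countable := by
  obtain ⟨r, hwo, hr⟩ := Cardinal.exists_ord_eq Γ
  refine ⟨r, hwo, fun a => ?_⟩
  have h := Ordinal.typein_lt_type r a
  rw [← hr, Cardinal.lt_ord, hΓ] at h
  have h2 : #{b // r b a} < ℵ_ 1 := h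
  rw [← Cardinal.succ_aleph0, Order.lt_succ_iff] at h2
  exact Cardinal.le_aleph0_iff_set_countable.1 h2

variable {Γ : Type u} {r : Γ → Γ → Prop}

theorem exists_bound (hΓ : #Γ = ℵ_ 1) (hwo : IsWellOrder Γ r) (hc : ∀ a, {b | r b a}.Countable)
    {C : Set Γ} (hC : C.Countable) : ∃ a, ∀ c ∈ C, r c a := by
  by_contra h
  push Not at h
  have hcov : (univ : Set Γ) ⊆ ⋃ c ∈ C, ({c} ∪ {b | r b c}) := by
    intro a _
    obtain ⟨c, hcC, hca⟩ := h a
    refine mem_iUnion₂.2 ⟨c, hcC, ?_⟩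
    rcases trichotomous_of r c a with h1 | h1 | h1
    · exact absurd h1 hca
    · left; exact h1.symm
    · right; exact h1
  have hcount : (univ : Set Γ).Countable :=
    (hC.biUnion fun c _ => (countable_singleton c).union (hc c)).mono hcov
  have h1 : #Γ ≤ ℵ₀ := by
    rw [Cardinal.mk_le_aleph0_iff]
    exact countable_univ_iff.1 hcount
  rw [hΓ] at h1
  exact absurd h1 (not_le_of_gt Cardinal.aleph0_lt_aleph_one)

theorem exists_cover (hΓ : #Γ = ℵ_ 1) (hwo : IsWellOrder Γ r) (hc : ∀ a, {b | r b a}.Countable)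
    (X : ℕ → ℕ → Prop) :
    (∃ h : ℕ → Γ, ∀ i j, X i j → r (h i) (h j)) ∨ ∃ g : ℕ → ℕ, ∀ i, X (g (i + 1)) (g i) := by
  classical
  by_cases hwf : WellFounded X
  · left
    let step : ∀ j : ℕ, (∀ i, X i j → Γ) → Γ := fun j f =>
      (exists_bound hΓ hwo hc (C := range fun i : {i // X i j} => f i.1 i.2)
        (countable_range _)).choose
    let h : ℕ → Γ := hwf.fix step
    have hh : ∀ j, h j = step j (fun i _ => h i) := fun j => hwf.fix_eq step j
    refine ⟨h, fun i j hij => ?_⟩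
    have := (exists_bound hΓ hwo hc (C := range fun i : {i // X i j} => h i.1)
        (countable_range _)).choose_spec (h i) ⟨⟨i, hij⟩, rfl⟩
    rw [hh j]
    exact this
  · right
    have h1 : ∃ a, ¬ Acc X a := by
      by_contra h2
      push Not at h2
      exact hwf ⟨h2⟩
    obtain ⟨a, ha⟩ := h1
    have h2 : ∀ b : {b // ¬ Acc X b}, ∃ c : {c // ¬ Acc X c}, X c.1 b.1 := by
      rintro ⟨b, hb⟩
      obtain ⟨c, hc1, hc2⟩ := exists_not_acc_lt_of_not_acc hb
      exact ⟨⟨c, hc1⟩, hc2⟩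
    choose f hf using h2
    let G : ℕ → {b // ¬ Acc X b} := fun n => Nat.rec ⟨a, ha⟩ (fun _ b => f b) n
    exact ⟨fun n => (G n).1, fun i => hf (G i)⟩

theorem exists_pattern (hΓ : #Γ = ℵ_ 1) (hwo : IsWellOrder Γ r) (hc : ∀ a, {b | r b a}.Countable)
    {C : Set Γ} (hC : C.Countable) :
    ∃ X : ℕ → ℕ → Prop, (¬ ∃ h : ℕ → Γ, (∀ i, h i ∈ C) ∧ ∀ i j, X i j → r (h i) (h j)) ∧
      (¬ ∃ g : ℕ → ℕ, ∀ i, X (g (i + 1)) (g i)) ∧
      ∃ i j i' j', X i j ∧ X i' j' ∧ (i, j) ≠ (i', j') := by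
  classical
  have hinf : Infinite Γ := by
    rw [Cardinal.infinite_iff, hΓ]
    exact Cardinal.aleph0_le_aleph 1
  let ι0 : ℕ ↪ Γ := Infinite.natEmbedding Γ
  obtain ⟨a, ha⟩ := exists_bound hΓ hwo hc (C := C ∪ range ι0)
    (hC.union (countable_range _))
  let D : Set Γ := {a} ∪ {b | r b a}
  have hD : D.Countable := (countable_singleton a).union (hc a)
  have : Countable D := hD.to_subtype
  obtain ⟨ι, hι⟩ := exists_injective_nat D
  have haD : a ∈ D := Or.inl rfl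
  have hCD : ∀ c ∈ C, c ∈ D := fun c hcC => Or.inr (ha c (Or.inl hcC))
  have h0D : ∀ n, ι0 n ∈ D := fun n => Or.inr (ha _ (Or.inr ⟨n, rfl⟩))
  let X : ℕ → ℕ → Prop := fun i j => ∃ b c : D, r b.1 c.1 ∧ ι b = i ∧ ι c = j
  refine ⟨X, ?_, ?_, ?_⟩
  · rintro ⟨h, hhC, hh⟩
    let f : D → D := fun b => ⟨h (ι b), hCD _ (hhC _)⟩
    have hf : ∀ b c : D, r b.1 c.1 → r (f b).1 (f c).1 := by
      intro b c hbc
      exact hh _ _ ⟨b, c, hbc, rfl, rfl⟩
    -- no decreasing point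
    have hno : ∀ b : D, ¬ r (f b).1 b.1 := by
      have hw : WellFounded (fun x y : D => r x.1 y.1) := InvImage.wf _ hwo.wf
      intro b
      induction b using hw.induction with
      | _ b ih =>
        intro hb
        exact ih (f b) hb (hf _ _ hb)
    exact hno ⟨a, haD⟩ (ha _ (Or.inl (hhC _)))
  · rintro ⟨g, hg⟩
    choose b c hbc hb hc' using hg
    have hstep : ∀ i, r (c (i + 1)).1 (c i).1 := by
      intro i
      have : c (i + 1) = b i := by
        apply hι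
        rw [hc' (i + 1), hb i]
      rw [this]
      exact hbc i
    have hmin := hwo.wf.has_min (range fun i => (c i).1) ⟨_, ⟨0, rfl⟩⟩
    obtain ⟨_, ⟨i, rfl⟩, hm⟩ := hmin
    exact hm _ ⟨i + 1, rfl⟩ (hstep i)
  · refine ⟨ι ⟨ι0 0, h0D 0⟩, ι ⟨a, haD⟩, ι ⟨ι0 1, h0D 1⟩, ι ⟨a, haD⟩, ?_, ?_, ?_⟩
    · exact ⟨_, _, ha _ (Or.inr ⟨0, rfl⟩), rfl, rfl⟩
    · exact ⟨_, _, ha _ (Or.inr ⟨1, rfl⟩), rfl, rfl⟩
    · intro h
      have h1 := congrArg Prod.fst h
      have h2 := hι h1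
      have h3 := congrArg Subtype.val h2
      have h4 := ι0.injective h3
      exact absurd h4 (by norm_num)

end Y105.Rel
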