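import Pool.Agent.Y105.TreeSum
import Pool.Agent.Y105.Rel
import Pool.Agent.Y105.Biorth

open Set Topology Filter Cardinal TopologicalSpace
open scoped ContDiff ENNReal

universe u v

namespace Y105.LpSurj

open Y105.Tame

/-- letters: index of an approximating point, and a witness `(a, g, m)` -/
abbrev Letter (Γ : Type u) : Type u := ℕ × (Γ × ℕ × ℕ)

section cond

variable {Γ : Type u} {F : Type v} [NormedAddCommGroup F] [NormedSpace ℝ F]

/-- first kind of constraint -/
def C1 (r : Γ → Γ → Prop) (φ : ℕ → (F →L[ℝ] ℝ)) (s : List (Letter Γ)) (q : F) : Prop :=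
  ∀ i j a b, s.reverse[i]? = some a → s.reverse[j]? = some b → ¬ r a.2.1 b.2.1 →
    |φ (Nat.pair i j) q| ≤ (1 / 2) ^ s.length

/-- second kind of constraint -/
def C2 (φ : ℕ → (F →L[ℝ] ℝ)) (s : List (Letter Γ)) (q : F) : Prop :=
  ∀ i a b, s.reverse[i]? = some a → s.reverse[i + 1]? = some b →
    1 / ((a.2.2.2 : ℝ) + 1) ≤ |φ (Nat.pair b.2.2.1 a.2.2.1) q|

open Classical in
/-- the state of a node: whether it is admissible, and its value -/
noncomputable def st (r : Γ → Γ → Prop) (φ : ℕ → (F →L[ℝ] ℝ)) (qd : ℕ → F) (δ : ℕ → ℝ) :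
    List (Letter Γ) → Prop × F
  | [] => (True, 0)
  | (σ :: s) =>
    if (st r φ qd δ s).1 ∧ (C1 r φ (σ :: s) (qd σ.1) ∨ C2 φ (σ :: s) (qd σ.1)) ∧
      (s ≠ [] → ‖qd σ.1 - (st r φ qd δ s).2‖ ≤ δ (s.length + 1))
    then (True, qd σ.1) else (False, (st r φ qd δ s).2)

variable {r : Γ → Γ → Prop} {φ : ℕ → (F →L[ℝ] ℝ)} {qd : ℕ → F} {δ : ℕ → ℝ}

/-- the value -/
noncomputable def val (r : Γ → Γ → Prop) (φ : ℕ → (F →L[ℝ] ℝ)) (qd : ℕ → F) (δ : ℕ → ℝ)
    (s : List (Letter Γ)) : F := (st r φ qd δ s).2

/-- admissibility -/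
def adm (r : Γ → Γ → Prop) (φ : ℕ → (F →L[ℝ] ℝ)) (qd : ℕ → F) (δ : ℕ → ℝ)
    (s : List (Letter Γ)) : Prop := (st r φ qd δ s).1

theorem val_nil : val r φ qd δ [] = 0 := rfl

theorem adm_cons_iff (σ : Letter Γ) (s : List (Letter Γ)) : adm r φ qd δ (σ :: s) ↔
    adm r φ qd δ s ∧ (C1 r φ (σ :: s) (qd σ.1) ∨ C2 φ (σ :: s) (qd σ.1)) ∧
      (s ≠ [] → ‖qd σ.1 - val r φ qd δ s‖ ≤ δ (s.length + 1)) := by
  unfold adm val
  rw [st]
  split_ifs with h
  · simp only [true_iff]; exact h
  · simp only [false_iff]; exact h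

theorem val_cons_adm {σ : Letter Γ} {s : List (Letter Γ)} (h : adm r φ qd δ (σ :: s)) :
    val r φ qd δ (σ :: s) = qd σ.1 := by
  have h' := (adm_cons_iff σ s).1 h
  unfold adm val at h'
  unfold val
  rw [st, if_pos h']

theorem val_cons_not {σ : Letter Γ} {s : List (Letter Γ)} (h : ¬ adm r φ qd δ (σ :: s)) :
    val r φ qd δ (σ :: s) = val r φ qd δ s := by
  have h' := (adm_cons_iff σ s).not.1 h
  unfold adm val at h'
  unfold val
  rw [st, if_neg h']

theorem incr_le (hδ : ∀ k, 0 ≤ δ k) : ∀ k, 2 ≤ k → ∀ s : List (Letter Γ), s.length = k →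
    ‖incr (val r φ qd δ) s‖ ≤ δ k := by
  intro k hk s hs
  cases s with
  | nil => simp at hs; omega
  | cons σ t =>
    have ht : t.length + 1 = k := by simpa using hs
    have htne : t ≠ [] := by
      rintro rfl
      simp at ht; omega
    rw [incr, List.tail_cons]
    by_cases h : adm r φ qd δ (σ :: t)
    · rw [val_cons_adm h, ← ht]
      exact ((adm_cons_iff σ t).1 h).2.2 htne
    · rw [val_cons_not h, sub_self, norm_zero]
      exact hδ k

theorem val_mem (s : List (Letter Γ)) : val r φ qd δ s ∈ ({0} ∪ range qd : Set F) := by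
  induction s with
  | nil => exact Or.inl rfl
  | cons σ s ih =>
    by_cases h : adm r φ qd δ (σ :: s)
    · rw [val_cons_adm h]; exact Or.inr ⟨_, rfl⟩
    · rw [val_cons_not h]; exact ih

/-- the node given by the first `k` letters of a sequence -/
def node (σ : ℕ → Letter Γ) : ℕ → List (Letter Γ)
  | 0 => []
  | (k + 1) => σ k :: node σ k

theorem node_length (σ : ℕ → Letter Γ) (k : ℕ) : (node σ k).length = k := by
  induction k with
  | zero => rfl
  | succ k ih => simp [node, ih]

theorem node_reverse (σ : ℕ → Letter Γ) (k i : ℕ) :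
    (node σ k).reverse[i]? = if i < k then some (σ i) else none := by
  induction k with
  | zero => simp [node]
  | succ k ih =>
    rw [node, List.reverse_cons, List.getElem?_append]
    simp only [List.length_reverse, node_length]
    by_cases h : i < k
    · rw [if_pos h, ih, if_pos h, if_pos (by omega)]
    · rw [if_neg h]
      by_cases h2 : i = k
      · subst h2
        simp
      · rw [if_neg (by omega)]
        have : i - k ≠ 0 := by omega
        rcases Nat.exists_eq_succ_of_ne_zero this with ⟨m, hm⟩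
        rw [hm]; simp

theorem node_reverse_some {σ : ℕ → Letter Γ} {k i : ℕ} {a : Letter Γ}
    (h : (node σ k).reverse[i]? = some a) : i < k ∧ a = σ i := by
  rw [node_reverse] at h
  split_ifs at h with h1
  exact ⟨h1, (Option.some.inj h).symm⟩

/-- a branch in the sense of `tree_value` is given by a sequence of letters -/
theorem exists_letters (br : ℕ → List (Letter Γ)) (hlen : ∀ k, (br k).length = k)
    (hstep : ∀ k, ∃ σ, br (k + 1) = σ :: br k) : ∃ σ : ℕ → Letter Γ, ∀ k, br k = node σ k := by
  choose σ hσ using hstep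
  refine ⟨σ, fun k => ?_⟩
  induction k with
  | zero => exact List.eq_nil_of_length_eq_zero (hlen 0)
  | succ k ih => rw [hσ, ih, node]

/-- a vector is reached as soon as good approximations exist at every level -/
theorem reach (hδ : ∀ k, 0 < δ k) (hδa : Antitone δ) (hδ0 : ∀ k, δ k ≤ (1 / 2) ^ k)
    (hqd : DenseRange qd) (z : F) (wt : ℕ → Γ × ℕ × ℕ) (O : ℕ → Set F) (hO : ∀ k, IsOpen (O k))
    (hzO : ∀ k, z ∈ O k)
    (hC : ∀ (σ : ℕ → Letter Γ), (∀ k, (σ k).2 = wt k) → ∀ k, ∀ q ∈ O k,
      C1 r φ (node σ (k + 1)) q ∨ C2 φ (node σ (k + 1)) q) :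
    ∃ br : ℕ → List (Letter Γ), (∀ k, (br k).length = k) ∧ (∀ k, ∃ σ, br (k + 1) = σ :: br k) ∧
      Tendsto (fun k => val r φ qd δ (br k)) atTop (𝓝 z) := by
  have h1 : ∀ k, ∃ n, qd n ∈ O k ∩ Metric.ball z (δ (k + 2) / 2) := by
    intro k
    obtain ⟨y, hy, ⟨n, rfl⟩⟩ := hqd.inter_open_nonempty _ ((hO k).inter Metric.isOpen_ball)
      ⟨z, hzO k, Metric.mem_ball_self (half_pos (hδ _))⟩
    exact ⟨n, hy⟩
  choose n hn using h1
  let σ : ℕ → Letter Γ := fun k => (n k, wt k)
  have hd : ∀ k, ‖qd (n k) - z‖ < δ (k + 2) / 2 := by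
    intro k
    have := (hn k).2
    rwa [Metric.mem_ball, dist_eq_norm] at this
  have hkey : ∀ k, adm r φ qd δ (node σ k) ∧ (∀ k', k = k' + 1 → val r φ qd δ (node σ k) = qd (n k')) := by
    intro k
    induction k with
    | zero => exact ⟨trivial, fun k' h => by omega⟩
    | succ k ih =>
      have hadm : adm r φ qd δ (node σ (k + 1)) := by
        rw [node, adm_cons_iff]
        refine ⟨ih.1, hC σ (fun _ => rfl) k _ (hn k).1, fun hne => ?_⟩
        cases k with
        | zero => exact absurd rfl hne
        | succ k =>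
          rw [ih.2 k rfl, node_length]
          have e1 : qd (σ (k + 1)).1 - qd (n k) = (qd (n (k + 1)) - z) - (qd (n k) - z) := by
            simp only [σ]; abel
          rw [e1]
          refine (norm_sub_le _ _).trans ?_
          have h2 := hd (k + 1)
          have h3 := hd k
          have h4 : δ (k + 1 + 2) ≤ δ (k + 1 + 1) := hδa (by omega)
          have h5 : δ (k + 2) = δ (k + 1 + 1) := rfl
          linarith
      refine ⟨hadm, fun k' hk' => ?_⟩
      have : k' = k := by omega
      subst this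
      rw [node] at hadm ⊢
      exact val_cons_adm hadm
  refine ⟨node σ, node_length σ, fun k => ⟨σ k, rfl⟩, ?_⟩
  rw [← tendsto_add_atTop_iff_nat 1]
  have h2 : (fun k => val r φ qd δ (node σ (k + 1))) = fun k => qd (n k) := by
    funext k
    exact (hkey (k + 1)).2 k rfl
  rw [h2, tendsto_iff_norm_sub_tendsto_zero]
  refine squeeze_zero (fun _ => norm_nonneg _) (fun k => ?_)
    (tendsto_pow_atTop_nhds_zero_of_lt_one (r := (1 / 2 : ℝ)) (by norm_num) (by norm_num))
  have h3 := hd k
  have h4 := hδ0 (k + 2)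
  have h5 : (1 / 2 : ℝ) ^ (k + 2) ≤ (1 / 2) ^ k :=
    pow_le_pow_of_le_one (by norm_num) (by norm_num) (by omega)
  have h6 : 0 < (1 / 2 : ℝ) ^ k := by positivity
  linarith

end cond

/-- Countable support of separable subsets. -/
theorem exists_countable_support {Γ : Type u} {p : ℝ≥0∞} [hp1 : Fact (1 ≤ p)] (hp : p ≠ ⊤)
    {Y : Set (lp (fun _ : Γ => ℝ) p)} (hY : IsSeparable Y) :
    ∃ C : Set Γ, C.Countable ∧ ∀ y ∈ Y, ∀ γ, y γ ≠ 0 → γ ∈ C := by
  obtain ⟨D, hD, hYD⟩ := hY
  have hsupp : ∀ x : lp (fun _ : Γ => ℝ) p, {γ | x γ ≠ 0}.Countable := by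
    intro x
    have : {γ | x γ ≠ 0} = ⋃ n : ℕ, {γ | 1 / ((n : ℝ) + 1) ≤ |x γ|} := by
      ext γ
      simp only [mem_ofPred_eq, mem_iUnion]
      constructor
      · intro h
        obtain ⟨n, hn⟩ := exists_nat_one_div_lt (abs_pos.2 h)
        exact ⟨n, hn.le⟩
      · rintro ⟨n, hn⟩ h
        rw [h, abs_zero] at hn
        have : 0 < 1 / ((n : ℝ) + 1) := by positivity
        linarith
    rw [this]
    exact countable_iUnion fun n => (finite_ge hp x (by positivity)).countable
  refine ⟨⋃ x ∈ D, {γ | x γ ≠ 0}, hD.biUnion fun x _ => hsupp x, ?_⟩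
  intro y hy γ hγ
  by_contra hno
  have hcl : IsClosed {x : lp (fun _ : Γ => ℝ) p | x γ = 0} := by
    have : Continuous (fun x : lp (fun _ : Γ => ℝ) p => x γ) :=
      (lp.evalCLM ℝ (fun _ : Γ => ℝ) p γ).continuous
    exact isClosed_eq this continuous_const
  have hsub : D ⊆ {x : lp (fun _ : Γ => ℝ) p | x γ = 0} := by
    intro x hx
    by_contra h
    exact hno (mem_iUnion₂.2 ⟨x, hx, h⟩)
  exact hγ ((closure_minimal hsub hcl) (hYD hy))

theorem main (p : ℝ≥0∞) [hp1 : Fact (1 ≤ p)] (hp : p ≠ ⊤) (Γ : Type u) (hΓ : #Γ = ℵ_ 1)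
    (F : Type v) [NormedAddCommGroup F] [NormedSpace ℝ F] [CompleteSpace F] [SeparableSpace F]
    (hF : ¬ FiniteDimensional ℝ F) :
    ∃ g : lp (fun _ : Γ => ℝ) p → F, ContDiff ℝ ∞ g ∧ Function.Surjective g ∧
      ∀ Y : Submodule ℝ (lp (fun _ : Γ => ℝ) p), IsSeparable (Y : Set (lp (fun _ : Γ => ℝ) p)) →
        ∃ z : F, ∀ y ∈ Y, g y ≠ z := by
  classical
  obtain ⟨r, hwo, hrc⟩ := Rel.exists_wo Γ hΓ
  obtain ⟨u, φ, hφ1, hφ2⟩ := Biorth.exists_biorth hF
  have hinf : Infinite Γ := by
    rw [Cardinal.infinite_iff, hΓ]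
    exact Cardinal.aleph0_le_aleph 1
  have γ0 : Γ := Classical.arbitrary Γ
  -- injection of the nodes into Γ
  obtain ⟨e, he⟩ : ∃ e : List (Letter Γ) → Γ, Function.Injective e := by
    have h1 : #(List (Letter Γ)) ≤ #Γ := by
      have h2 : #(Letter Γ) = #Γ := by
        have h3 : ℵ₀ ≤ #Γ := Cardinal.infinite_iff.1 hinf
        simp only [Letter, Cardinal.mk_prod, Cardinal.lift_id, Cardinal.mk_nat,
          Cardinal.aleph0_mul_aleph0, Cardinal.lift_aleph0, Cardinal.lift_uzero]
        rw [Cardinal.mul_aleph0_eq h3, Cardinal.aleph0_mul_eq h3]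
      have : Infinite (Letter Γ) := inferInstance
      rw [Cardinal.mk_list_eq_mk, h2]
    obtain ⟨f⟩ := (Cardinal.le_def _ _).1 h1
    exact ⟨f, f.injective⟩
  obtain ⟨δ, hδ⟩ := exists_tol (F := F) (p := p) hp he
  let qd : ℕ → F := denseSeq F
  have hqd : DenseRange qd := denseRange_denseSeq F
  let v : List (Letter Γ) → F := val r φ qd δ
  have hv0 : v [] = 0 := rfl
  have hw : ∀ k, 2 ≤ k → ∀ s : List (Letter Γ), s.length = k → ‖incr v s‖ ≤ δ k :=
    incr_le (fun k => (hδ.pos k).le)
  refine ⟨tree e (incr v), tree_contDiff hp he hδ hw, ?_, ?_⟩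
  · -- surjectivity
    intro z
    have hbr : ∃ br : ℕ → List (Letter Γ), (∀ k, (br k).length = k) ∧
        (∀ k, ∃ σ, br (k + 1) = σ :: br k) ∧ Tendsto (fun k => v (br k)) atTop (𝓝 z) := by
      rcases Rel.exists_cover hΓ hwo hrc (fun i j => φ (Nat.pair i j) z ≠ 0) with ⟨h, hh⟩ | ⟨g, hg⟩
      · refine reach hδ.pos hδ.anti hδ.le hqd z (fun k => (h k, 0, 0))
          (fun k => ⋂ i ∈ Finset.range (k + 1), ⋂ j ∈ Finset.range (k + 1),
            {q | ¬ r (h i) (h j) → |φ (Nat.pair i j) q| < (1 / 2) ^ (k + 1)}) ?_ ?_ ?_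
        · intro k
          refine isOpen_biInter_finset fun i _ => isOpen_biInter_finset fun j _ => ?_
          by_cases hr : r (h i) (h j)
          · simp [hr]
          · simp only [hr, not_false_eq_true, true_imp_iff]
            exact isOpen_lt (φ _).continuous.abs continuous_const
        · intro k
          refine mem_iInter₂.2 fun i _ => mem_iInter₂.2 fun j _ => ?_
          intro hr
          have : φ (Nat.pair i j) z = 0 := by
            by_contra h0
            exact hr (hh i j h0)
          rw [this, abs_zero]; positivity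
        · intro σ hσ k q hq
          left
          intro i j a b ha hb hab
          obtain ⟨hi, rfl⟩ := node_reverse_some ha
          obtain ⟨hj, rfl⟩ := node_reverse_some hb
          have h1 := mem_iInter₂.1 hq i (Finset.mem_range.2 hi)
          have h2 := mem_iInter₂.1 h1 j (Finset.mem_range.2 hj)
          rw [hσ, hσ] at hab
          rw [node_length]
          exact (h2 hab).le
      · have hm : ∀ i, ∃ m : ℕ, 1 / ((m : ℝ) + 1) < |φ (Nat.pair (g (i + 1)) (g i)) z| :=
          fun i => exists_nat_one_div_lt (abs_pos.2 (hg i))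
        choose m hm using hm
        refine reach hδ.pos hδ.anti hδ.le hqd z (fun k => (γ0, g k, m k))
          (fun k => ⋂ i ∈ Finset.range (k + 1),
            {q | 1 / ((m i : ℝ) + 1) < |φ (Nat.pair (g (i + 1)) (g i)) q|}) ?_ ?_ ?_
        · intro k
          refine isOpen_biInter_finset fun i _ => ?_
          exact isOpen_lt continuous_const (φ _).continuous.abs
        · intro k
          exact mem_iInter₂.2 fun i _ => hm i
        · intro σ hσ k q hq
          right
          intro i a b ha hb
          obtain ⟨hi, rfl⟩ := node_reverse_some ha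
          obtain ⟨hj, rfl⟩ := node_reverse_some hb
          have h1 := mem_iInter₂.1 hq i (Finset.mem_range.2 hi)
          rw [hσ, hσ]
          exact le_of_lt h1
    obtain ⟨br, hb1, hb2, hb3⟩ := hbr
    exact tree_branch hp he v hv0 hδ hw br hb1 hb2 hb3
  · -- separable subspaces
    intro Y hY
    obtain ⟨C, hC, hCY⟩ := exists_countable_support hp hY
    -- letters used by the nodes coded in C
    have hN : {s : List (Letter Γ) | e s ∈ C}.Countable := hC.preimage he
    let CΓ : Set Γ := ⋃ s ∈ {s : List (Letter Γ) | e s ∈ C}, {a | ∃ σ ∈ s, σ.2.1 = a}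
    have hCΓ : CΓ.Countable := by
      refine hN.biUnion fun s _ => ?_
      have : {a | ∃ σ ∈ s, σ.2.1 = a} = (fun σ : Letter Γ => σ.2.1) '' {σ | σ ∈ s} := by
        ext a; simp
      rw [this]
      exact (List.finite_toSet s).countable.image _
    obtain ⟨X, hX1, hX2, i1, j1, i2, j2, hX3, hX4, hX5⟩ := Rel.exists_pattern hΓ hwo hrc hCΓ
    let Q : Set F := {0} ∪ range qd
    have hQ : Q.Countable := (countable_singleton _).union (countable_range _)
    obtain ⟨z, hz1, hz2⟩ := Biorth.exists_vector u φ hφ1 hφ2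
      {n | X (Nat.unpair n).1 (Nat.unpair n).2} (p₁ := Nat.pair i1 j1) (p₂ := Nat.pair i2 j2)
      (by simpa using hX3) (by simpa using hX4) (by
        intro h
        apply hX5
        have := congrArg Nat.unpair h
        simpa using this) hQ
    have hzX : ∀ i j, φ (Nat.pair i j) z ≠ 0 ↔ X i j := by
      intro i j
      rw [hz1]; simp
    have hzQ : z ∉ Q := by
      intro h
      exact hz2 z h z h 0 (by simp)
    refine ⟨z, fun y hy hgy => ?_⟩
    rcases tree_value hp he v hv0 hδ hw y with h | ⟨σ, s, τ, -, h⟩ | ⟨br, hb1, hb2, hb3, hb4⟩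
    · rw [hgy] at h
      exact hzQ (Or.inl h)
    · rw [hgy] at h
      exact hz2 _ (val_mem s) _ (val_mem (σ :: s)) τ h
    · rw [hgy] at hb4
      obtain ⟨σ, hσ⟩ := exists_letters br hb1 hb2
      -- all nodes are admissible
      have hadm : ∀ k, adm r φ qd δ (node σ k) := by
        by_contra hno
        push Not at hno
        obtain ⟨k, hk⟩ := hno
        have hnot : ∀ m, ¬ adm r φ qd δ (node σ (k + m)) := by
          intro m
          induction m with
          | zero => exact hk
          | succ m ih =>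
            intro hadm
            rw [← add_assoc, node, adm_cons_iff] at hadm
            exact ih hadm.1
        have hconst : ∀ m, v (node σ (k + m)) = v (node σ k) := by
          intro m
          induction m with
          | zero => rfl
          | succ m ih =>
            have h1 := hnot (m + 1)
            rw [← add_assoc, node] at h1 ⊢
            rw [← ih]
            exact val_cons_not h1
        have hlim : Tendsto (fun m => v (br (m + k))) atTop (𝓝 z) :=
          (tendsto_add_atTop_iff_nat (f := fun k => v (br k)) k).2 hb4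
        have hlim2 : Tendsto (fun _ : ℕ => v (node σ k)) atTop (𝓝 z) := by
          refine hlim.congr fun m => ?_
          rw [hσ, add_comm, hconst]
        have : z = v (node σ k) := tendsto_nhds_unique hlim2 tendsto_const_nhds |>.symm ▸ rfl
        exact hzQ (this ▸ val_mem _)
      have hlim : Tendsto (fun k => qd (σ k).1) atTop (𝓝 z) := by
        have h1 := (tendsto_add_atTop_iff_nat (f := fun k => v (br k)) 1).2 hb4
        refine h1.congr fun k => ?_
        rw [hσ, node]
        have := hadm (k + 1)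
        rw [node] at this
        exact val_cons_adm this
      have hcond : ∀ k, C1 r φ (node σ (k + 1)) (qd (σ k).1) ∨ C2 φ (node σ (k + 1)) (qd (σ k).1) := by
        intro k
        have := hadm (k + 1)
        rw [node, adm_cons_iff] at this
        exact this.2.1
      by_cases hfreq : ∃ᶠ k in atTop, C1 r φ (node σ (k + 1)) (qd (σ k).1)
      · apply hX1
        refine ⟨fun i => (σ i).2.1, fun i => ?_, fun i j hij => ?_⟩
        · refine mem_iUnion₂.2 ⟨node σ (i + 1), ?_, σ i, by simp [node], rfl⟩
          have := hb3 i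
          rw [hσ] at this
          exact hCY y hy _ this
        · by_contra hr
          have h0 : φ (Nat.pair i j) z ≠ 0 := (hzX i j).2 hij
          apply h0
          have hl : Tendsto (fun k => |φ (Nat.pair i j) (qd (σ k).1)|) atTop
              (𝓝 |φ (Nat.pair i j) z|) :=
            (((φ (Nat.pair i j)).continuous.tendsto z).comp hlim).abs
          have hle : |φ (Nat.pair i j) z| ≤ 0 := by
            by_contra hpos
            push Not at hpos
            have hp2 : Tendsto (fun k : ℕ => (1 / 2 : ℝ) ^ (k + 1)) atTop (𝓝 0) :=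
              (tendsto_add_atTop_iff_nat (f := fun k : ℕ => (1 / 2 : ℝ) ^ k) 1).2
                (tendsto_pow_atTop_nhds_zero_of_lt_one (by norm_num) (by norm_num))
            have he1 := hl.eventually_const_lt (half_lt_self hpos)
            have he2 := hp2.eventually_lt_const (half_pos hpos)
            have he3 : ∀ᶠ k : ℕ in atTop, i < k + 1 ∧ j < k + 1 := by
              filter_upwards [eventually_ge_atTop (i + j)] with k hk
              omega
            obtain ⟨k, hk1, hk2, hk3, hk4, hk5⟩ := (hfreq.and_eventually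
              (he1.and (he2.and he3))).exists
            have := hk1 i j (σ i) (σ j) (by rw [node_reverse, if_pos hk4])
              (by rw [node_reverse, if_pos hk5]) hr
            rw [node_length] at this
            linarith
          have := le_antisymm hle (abs_nonneg _)
          simpa using this
      · apply hX2
        refine ⟨fun i => (σ i).2.2.1, fun i => ?_⟩
        rw [← hzX]
        rw [Filter.not_frequently] at hfreq
        have hC2 : ∀ᶠ k in atTop, C2 φ (node σ (k + 1)) (qd (σ k).1) := by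
          filter_upwards [hfreq] with k hk
          exact (hcond k).resolve_left hk
        have hl : Tendsto (fun k => |φ (Nat.pair (σ (i + 1)).2.2.1 (σ i).2.2.1) (qd (σ k).1)|) atTop
              (𝓝 |φ (Nat.pair (σ (i + 1)).2.2.1 (σ i).2.2.1) z|) :=
            (((φ _).continuous.tendsto z).comp hlim).abs
        have hge : 1 / (((σ i).2.2.2 : ℝ) + 1) ≤ |φ (Nat.pair (σ (i + 1)).2.2.1 (σ i).2.2.1) z| := by
          refine ge_of_tendsto hl ?_
          filter_upwards [hC2, eventually_ge_atTop (i + 1)] with k hk hik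
          exact hk i (σ i) (σ (i + 1)) (by rw [node_reverse, if_pos (by omega)])
            (by rw [node_reverse, if_pos (by omega)])
        have hpos : 0 < 1 / (((σ i).2.2.2 : ℝ) + 1) := by positivity
        exact abs_pos.1 (lt_of_lt_of_le hpos hge)

end Y105.LpSurj
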