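import Mathlib

open Set Topology Filter
open scoped ContDiff ENNReal

namespace Y105.Tame

section general

variable {E : Type*} [NormedAddCommGroup E] [NormedSpace ℝ E]
variable {F : Type*} [NormedAddCommGroup F] [NormedSpace ℝ F]
variable {G : Type*} [NormedAddCommGroup G] [NormedSpace ℝ G]

/-- A family of smooth maps all of whose derivatives are bounded on balls, uniformly over the
family. -/
def UTame {ι : Type*} (f : ι → E → F) : Prop :=
  (∀ i, ContDiff ℝ ∞ (f i)) ∧
    ∀ (j : ℕ) (R : ℝ), ∃ M : ℝ, ∀ i x, ‖x‖ ≤ R → ‖iteratedFDeriv ℝ j (f i) x‖ ≤ M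

theorem UTame.bound {ι : Type*} {f : ι → E → F} (h : UTame f) (n : ℕ) (R : ℝ) :
    ∃ M : ℝ, 1 ≤ M ∧ ∀ j ≤ n, ∀ i x, ‖x‖ ≤ R → ‖iteratedFDeriv ℝ j (f i) x‖ ≤ M := by
  choose M hM using fun j => h.2 j R
  refine ⟨1 + ∑ j ∈ Finset.range (n + 1), |M j|, ?_, fun j hj i x hx => ?_⟩
  · have : 0 ≤ ∑ j ∈ Finset.range (n + 1), |M j| := Finset.sum_nonneg fun _ _ => abs_nonneg _
    linarith
  · have h1 := hM j i x hx
    have h2 : |M j| ≤ ∑ j ∈ Finset.range (n + 1), |M j| :=
      Finset.single_le_sum (f := fun j => |M j|) (fun _ _ => abs_nonneg _)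
        (Finset.mem_range.2 (Nat.lt_succ_of_le hj))
    linarith [le_abs_self (M j)]

theorem UTame.comp {ι : Type*} {f : ι → E → ℝ} (h : UTame f) {φ : ℝ → ℝ} (hφ : ContDiff ℝ ∞ φ) :
    UTame (fun i x => φ (f i x)) := by
  refine ⟨fun i => hφ.comp (h.1 i), fun n R => ?_⟩
  obtain ⟨D, hD1, hD⟩ := h.bound n R
  -- bounds for φ on the ball of radius D
  have hC : ∀ j : ℕ, ∃ C : ℝ, ∀ y ∈ Metric.closedBall (0 : ℝ) D, ‖iteratedFDeriv ℝ j φ y‖ ≤ C := by
    intro j
    exact (isCompact_closedBall (0 : ℝ) D).exists_bound_of_continuousOn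
      ((hφ.continuous_iteratedFDeriv (by exact_mod_cast le_top)).continuousOn)
  choose C hC using hC
  refine ⟨n.factorial * (∑ j ∈ Finset.range (n + 1), |C j|) * D ^ n, fun i x hx => ?_⟩
  have hval : f i x ∈ Metric.closedBall (0 : ℝ) D := by
    have := hD 0 (Nat.zero_le _) i x hx
    rw [norm_iteratedFDeriv_zero] at this
    simpa using this
  refine norm_iteratedFDeriv_comp_le (N := ∞) hφ (h.1 i) (by exact_mod_cast le_top) x ?_ ?_
  · intro j hj
    refine (hC j _ hval).trans ((le_abs_self _).trans ?_)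
    exact Finset.single_le_sum (f := fun j => |C j|) (fun _ _ => abs_nonneg _)
        (Finset.mem_range.2 (Nat.lt_succ_of_le hj))
  · intro j h1 hj
    exact (hD j hj i x hx).trans (le_self_pow₀ hD1 (by omega))

theorem UTame.mul {ι : Type*} {f g : ι → E → ℝ} (hf : UTame f) (hg : UTame g) :
    UTame (fun i x => f i x * g i x) := by
  refine ⟨fun i => (hf.1 i).mul (hg.1 i), fun n R => ?_⟩
  obtain ⟨D, hD1, hD⟩ := hf.bound n R
  obtain ⟨D', hD1', hD'⟩ := hg.bound n R
  refine ⟨∑ i ∈ Finset.range (n + 1), (n.choose i : ℝ) * D * D', fun i x hx => ?_⟩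
  refine (norm_iteratedFDeriv_mul_le (N := ∞) (hf.1 i) (hg.1 i) x
    (by exact_mod_cast le_top)).trans ?_
  refine Finset.sum_le_sum fun j hj => ?_
  have hj' : j ≤ n := Nat.lt_succ_iff.1 (Finset.mem_range.1 hj)
  have h1 := hD j hj' i x hx
  have h2 := hD' (n - j) (Nat.sub_le _ _) i x hx
  have h3 : (0 : ℝ) ≤ n.choose j := Nat.cast_nonneg _
  exact mul_le_mul (mul_le_mul_of_nonneg_left h1 h3) h2 (norm_nonneg _)
    (mul_nonneg h3 (by linarith))

/-- A uniformly bounded family of continuous linear maps. -/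
theorem UTame.clm {ι : Type*} (L : ι → E →L[ℝ] F) {C : ℝ} (hL : ∀ i, ‖L i‖ ≤ C) :
    UTame (fun i x => L i x) := by
  refine ⟨fun i => (L i).contDiff, fun n R => ?_⟩
  match n with
  | 0 =>
    refine ⟨C * |R|, fun i x hx => ?_⟩
    rw [norm_iteratedFDeriv_zero]
    refine ((L i).le_opNorm x).trans ?_
    exact mul_le_mul (hL i) (hx.trans (le_abs_self R)) (norm_nonneg _)
      ((norm_nonneg _).trans (hL i))
  | 1 =>
    refine ⟨C, fun i x _ => ?_⟩
    rw [norm_iteratedFDeriv_one, (L i).fderiv]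
    exact hL i
  | (m + 2) =>
    refine ⟨0, fun i x _ => ?_⟩
    rw [← norm_iteratedFDeriv_fderiv]
    have : fderiv ℝ (fun x => L i x) = fun _ => L i := by
      funext y; exact (L i).fderiv
    rw [this, iteratedFDeriv_const_of_ne (Nat.succ_ne_zero m)]
    simp

theorem norm_iteratedFDeriv_smul_const {c : E → ℝ} (hc : ContDiff ℝ ∞ c) (w : F) (j : ℕ) (x : E) :
    ‖iteratedFDeriv ℝ j (fun y => c y • w) x‖ ≤ ‖w‖ * ‖iteratedFDeriv ℝ j c x‖ := by
  have h := (ContinuousLinearMap.toSpanSingleton ℝ w).norm_iteratedFDeriv_comp_left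
    (f := c) (x := x) (N := ∞) (n := j) hc.contDiffAt (by exact_mod_cast le_top)
  have e : (⇑(ContinuousLinearMap.toSpanSingleton ℝ w) ∘ c) = fun y => c y • w := by
    funext y; simp [ContinuousLinearMap.toSpanSingleton_apply]
  rw [e] at h
  simpa using h

/-- Local version of the theorem on smoothness of series. -/
theorem contDiffOn_tsum_nat {f : ℕ → E → F} [CompleteSpace F] {n : ℕ} {s : Set E} (hs : IsOpen s)
    (hs' : IsPreconnected s) (hf : ∀ i, ContDiff ℝ n (f i)) {v : ℕ → ℝ} (hv : Summable v)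
    (hb : ∀ j ≤ n, ∀ i, ∀ x ∈ s, ‖iteratedFDeriv ℝ j (f i) x‖ ≤ v i) :
    ContDiffOn ℝ n (fun x => ∑' i, f i x) s := by
  have key : ∀ j ≤ n, ∀ x ∈ s, iteratedFDeriv ℝ j (fun x => ∑' i, f i x) x
      = ∑' i, iteratedFDeriv ℝ j (f i) x := by
    intro j
    induction j with
    | zero =>
      intro _ x hx
      simp_rw [iteratedFDeriv_zero_eq_comp]
      exact (continuousMultilinearCurryFin0 ℝ E F).symm.toContinuousLinearEquiv.map_tsum
    | succ j ih =>
      intro hj x hx
      have hj' : j ≤ n := (Nat.le_succ j).trans hj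
      have hd : HasFDerivAt (fun y => ∑' i, iteratedFDeriv ℝ j (f i) y)
          (∑' i, fderiv ℝ (iteratedFDeriv ℝ j (f i)) x) x := by
        refine hasFDerivAt_tsum_of_isPreconnected hv hs hs' (fun i y hy => ?_) (fun i y hy => ?_) hx
          (Summable.of_norm_bounded hv fun i => hb j hj' i x hx) hx
        · exact ((hf i).differentiable_iteratedFDeriv (by exact_mod_cast hj)).differentiableAt.hasFDerivAt
        · rw [fderiv_iteratedFDeriv, Function.comp_apply, LinearIsometryEquiv.norm_map]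
          exact hb (j + 1) hj i y hy
      have heq : iteratedFDeriv ℝ j (fun x => ∑' i, f i x) =ᶠ[𝓝 x]
          fun y => ∑' i, iteratedFDeriv ℝ j (f i) y := by
        filter_upwards [hs.mem_nhds hx] with y hy
        exact ih hj' y hy
      rw [iteratedFDeriv_succ_eq_comp_left, Function.comp_apply, heq.fderiv_eq, hd.fderiv]
      simp_rw [iteratedFDeriv_succ_eq_comp_left]
      exact (continuousMultilinearCurryLeftEquiv ℝ
        (fun _ : Fin (j + 1) => E) F).symm.toContinuousLinearEquiv.map_tsum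
  apply contDiffOn_of_continuousOn_differentiableOn (n := n)
  · intro m hm
    have hm' : m ≤ n := by exact_mod_cast hm
    have : ContinuousOn (fun x => ∑' i, iteratedFDeriv ℝ m (f i) x) s := by
      refine continuousOn_tsum (fun i => ?_) hv (fun i x hx => hb m hm' i x hx)
      exact ((hf i).continuous_iteratedFDeriv (by exact_mod_cast hm')).continuousOn
    refine this.congr ?_
    intro x hx
    beta_reduce
    rw [iteratedFDerivWithin_of_isOpen m hs hx, key m hm' x hx]
  · intro m hm
    have hm' : m + 1 ≤ n := by exact_mod_cast hm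
    intro x hx
    have hd : HasFDerivAt (fun y => ∑' i, iteratedFDeriv ℝ m (f i) y)
        (∑' i, fderiv ℝ (iteratedFDeriv ℝ m (f i)) x) x := by
      refine hasFDerivAt_tsum_of_isPreconnected hv hs hs' (fun i y hy => ?_) (fun i y hy => ?_) hx
        (Summable.of_norm_bounded hv fun i => hb m (by omega) i x hx) hx
      · exact ((hf i).differentiable_iteratedFDeriv (by exact_mod_cast hm')).differentiableAt.hasFDerivAt
      · rw [fderiv_iteratedFDeriv, Function.comp_apply, LinearIsometryEquiv.norm_map]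
        exact hb (m + 1) hm' i y hy
    refine (hd.differentiableAt.differentiableWithinAt).congr ?_ ?_
    · intro y hy
      beta_reduce
      rw [iteratedFDerivWithin_of_isOpen m hs hy, key m (by omega) y hy]
    · beta_reduce
      rw [iteratedFDerivWithin_of_isOpen m hs hx, key m (by omega) x hx]

end general

end Y105.Tame
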