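import Pool.Agent.Y105.LocSum

open Set Topology Filter
open scoped ContDiff ENNReal

namespace Y105.Tame

/-! ### the scalar cut-off functions -/

noncomputable def rho (u : ℝ) : ℝ := Real.smoothTransition (4 * u - 2)
noncomputable def alpha (u : ℝ) : ℝ := Real.smoothTransition (4 * u - 3)
noncomputable def beta (u : ℝ) : ℝ := Real.smoothTransition (2 - u)
noncomputable def lam (u : ℝ) : ℝ := Real.smoothTransition (4 * u - 1)
noncomputable def mu (u : ℝ) : ℝ := Real.smoothTransition (2 * u - 1)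

theorem contDiff_rho : ContDiff ℝ ∞ rho :=
  Real.smoothTransition.contDiff.comp (by fun_prop)
theorem contDiff_alpha : ContDiff ℝ ∞ alpha :=
  Real.smoothTransition.contDiff.comp (by fun_prop)
theorem contDiff_beta : ContDiff ℝ ∞ beta :=
  Real.smoothTransition.contDiff.comp (by fun_prop)
theorem contDiff_lam : ContDiff ℝ ∞ lam :=
  Real.smoothTransition.contDiff.comp (by fun_prop)
theorem contDiff_mu : ContDiff ℝ ∞ mu :=
  Real.smoothTransition.contDiff.comp (by fun_prop)

section

variable {Γ : Type*} {p : ℝ≥0∞} [hp1 : Fact (1 ≤ p)]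
variable {F : Type*} [NormedAddCommGroup F] [NormedSpace ℝ F]
variable {S : Type*} {e : List S → Γ}

/-- the nodes of level `k` -/
abbrev Lev (S : Type*) (k : ℕ) : Type _ := {s : List S // s.length = k}

/-- the number of (weakly) active nodes of level `k`, smoothed -/
noncomputable def nlev (e : List S → Γ) (k : ℕ) (x : lp (fun _ : Γ => ℝ) p) : ℝ :=
  ∑' s : Lev S k, rho (2 ^ k * x (e s.1))

/-- the activation of a node -/
noncomputable def act (e : List S → Γ) : List S → lp (fun _ : Γ => ℝ) p → ℝ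
  | [], _ => 1
  | (σ :: s), x => alpha (2 ^ (s.length + 1) * x (e (σ :: s))) * beta (nlev e (s.length + 1) x)
      * mu (act e s x)

theorem UTame.reindex {E : Type*} [NormedAddCommGroup E] [NormedSpace ℝ E] {ι κ : Type*}
    {f : ι → E → F} (h : UTame f) (g : κ → ι) : UTame (fun k => f (g k)) :=
  ⟨fun k => h.1 _, fun j R => by
    obtain ⟨M, hM⟩ := h.2 j R
    exact ⟨M, fun k x hx => hM _ x hx⟩⟩

theorem UTame.one {E : Type*} [NormedAddCommGroup E] [NormedSpace ℝ E] {ι : Type*} :
    UTame (fun (_ : ι) (_ : E) => (1 : ℝ)) := by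
  refine ⟨fun _ => contDiff_const, fun j R => ⟨1, fun _ x _ => ?_⟩⟩
  rcases Nat.eq_zero_or_pos j with rfl | hj
  · rw [norm_iteratedFDeriv_zero]; simp
  · rw [iteratedFDeriv_const_of_ne (by omega)]; simp

theorem utame_coord (e : List S → Γ) (k : ℕ) :
    UTame (fun (s : Lev S k) (x : lp (fun _ : Γ => ℝ) p) => x (e s.1)) := by
  have h : ∀ s : Lev S k, ‖lp.evalCLM ℝ (fun _ : Γ => ℝ) p (e s.1)‖ ≤ 1 := by
    intro s
    refine ContinuousLinearMap.opNorm_le_bound _ zero_le_one fun x => ?_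
    rw [one_mul]
    exact lp.norm_apply_le_norm (zero_lt_one.trans_le hp1.out).ne' x _
  exact UTame.clm (fun s : Lev S k => lp.evalCLM ℝ (fun _ : Γ => ℝ) p (e s.1)) h

theorem inj_lev (he : Function.Injective e) (k : ℕ) :
    Function.Injective (fun s : Lev S k => e s.1) :=
  fun _ _ h => Subtype.ext (he h)

/-- the threshold of level `k` -/
noncomputable def thr (k : ℕ) : ℝ := (2 ^ k)⁻¹ / 2

theorem thr_pos (k : ℕ) : 0 < thr k := by unfold thr; positivity

theorem lt_of_abs_lt_thr {k : ℕ} {t : ℝ} (h : |t| < thr k) : (2 : ℝ) ^ k * t < 1 / 2 := by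
  have h1 : t < (2 ^ k)⁻¹ / 2 := lt_of_le_of_lt (le_abs_self t) h
  have h2 : (0 : ℝ) < 2 ^ k := by positivity
  calc (2 : ℝ) ^ k * t < 2 ^ k * ((2 ^ k)⁻¹ / 2) := mul_lt_mul_of_pos_left h1 h2
    _ = 1 / 2 := by field_simp

theorem rho_eq_zero {u : ℝ} (h : u ≤ 1 / 2) : rho u = 0 :=
  Real.smoothTransition.zero_of_nonpos (by linarith)
theorem rho_eq_one {u : ℝ} (h : 3 / 4 ≤ u) : rho u = 1 :=
  Real.smoothTransition.one_of_one_le (by linarith)
theorem alpha_eq_zero {u : ℝ} (h : u ≤ 3 / 4) : alpha u = 0 :=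
  Real.smoothTransition.zero_of_nonpos (by linarith)
theorem alpha_one : alpha 1 = 1 :=
  Real.smoothTransition.one_of_one_le (by norm_num)
theorem beta_eq_zero {u : ℝ} (h : 2 ≤ u) : beta u = 0 :=
  Real.smoothTransition.zero_of_nonpos (by linarith)
theorem beta_one : beta 1 = 1 :=
  Real.smoothTransition.one_of_one_le (by norm_num)
theorem lam_eq_zero {u : ℝ} (h : u ≤ 1 / 4) : lam u = 0 :=
  Real.smoothTransition.zero_of_nonpos (by linarith)
theorem lam_eq_one {u : ℝ} (h : 1 / 2 ≤ u) : lam u = 1 :=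
  Real.smoothTransition.one_of_one_le (by linarith)
theorem mu_eq_zero {u : ℝ} (h : u ≤ 1 / 2) : mu u = 0 :=
  Real.smoothTransition.zero_of_nonpos (by linarith)
theorem mu_one : mu 1 = 1 :=
  Real.smoothTransition.one_of_one_le (by norm_num)
theorem rho_nonneg (u : ℝ) : 0 ≤ rho u := Real.smoothTransition.nonneg _
theorem lam_nonneg (u : ℝ) : 0 ≤ lam u := Real.smoothTransition.nonneg _
theorem lam_le_one (u : ℝ) : lam u ≤ 1 := Real.smoothTransition.le_one _

theorem utame_nlev (hp : p ≠ ⊤) (he : Function.Injective e) (k : ℕ) :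
    UTame (fun (_ : Unit) (x : lp (fun _ : Γ => ℝ) p) => nlev e k x) := by
  have h1 : UTame (fun (s : Lev S k) (x : lp (fun _ : Γ => ℝ) p) => rho (2 ^ k * x (e s.1))) := by
    have := (utame_coord (p := p) e k).comp (φ := fun t => rho (2 ^ k * t))
      (contDiff_rho.comp (by fun_prop))
    exact this
  have hsupp : ∀ (s : Lev S k) (x : lp (fun _ : Γ => ℝ) p), |x (e s.1)| < thr k →
      rho (2 ^ k * x (e s.1)) = 0 := by
    intro s x hx
    exact rho_eq_zero (lt_of_abs_lt_thr hx).le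
  refine ⟨fun _ => locSum_contDiff hp (inj_lev he k) (thr_pos k) h1.1 hsupp, fun j R => ?_⟩
  obtain ⟨M, hM1, hM⟩ := h1.bound j R
  refine ⟨(R / (thr k / 2)) ^ p.toReal * M, fun _ x hx => ?_⟩
  have hR : 0 ≤ R := (norm_nonneg _).trans hx
  refine (locSum_bound hp (inj_lev he k) (thr_pos k) h1.1 hsupp j x (M := M) (by linarith)
    (fun s => hM j le_rfl s x hx)).trans ?_
  refine mul_le_mul_of_nonneg_right ?_ (by linarith)
  refine Real.rpow_le_rpow ?_ ?_ (toReal_pos' hp).le
  · have := thr_pos k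
    positivity
  · have := thr_pos k
    gcongr

theorem utame_act (hp : p ≠ ⊤) (he : Function.Injective e) (k : ℕ) :
    UTame (fun (s : Lev S k) (x : lp (fun _ : Γ => ℝ) p) => act e s.1 x) := by
  induction k with
  | zero =>
    have : (fun (s : Lev S 0) (x : lp (fun _ : Γ => ℝ) p) => act e s.1 x) = fun _ _ => 1 := by
      funext s x
      have : s.1 = [] := List.eq_nil_of_length_eq_zero s.2
      rw [this]; rfl
    rw [this]; exact UTame.one
  | succ k ih =>
    have h1 : UTame (fun (s : Lev S (k+1)) (x : lp (fun _ : Γ => ℝ) p) =>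
        alpha (2 ^ (k+1) * x (e s.1))) :=
      (utame_coord (p := p) e (k+1)).comp (φ := fun t => alpha (2 ^ (k+1) * t))
        (contDiff_alpha.comp (by fun_prop))
    have h2 : UTame (fun (_ : Lev S (k+1)) (x : lp (fun _ : Γ => ℝ) p) =>
        beta (nlev e (k+1) x)) :=
      ((utame_nlev (p := p) hp he (k+1)).comp contDiff_beta).reindex (fun _ => ())
    have h3 : UTame (fun (s : Lev S (k+1)) (x : lp (fun _ : Γ => ℝ) p) =>
        mu (act e s.1.tail x)) :=
      (ih.comp contDiff_mu).reindex (fun s : Lev S (k+1) => ⟨s.1.tail, by simp [s.2]⟩)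
    have h4 := (h1.mul h2).mul h3
    convert h4 using 3 with s x
    obtain ⟨s, hs⟩ := s
    cases s with
    | nil => simp at hs
    | cons σ t =>
      have ht : t.length = k := by simpa using hs
      simp only [act, ht, List.tail_cons]

omit hp1 in
theorem act_ne_zero {σ : S} {s : List S} {x : lp (fun _ : Γ => ℝ) p}
    (h : act e (σ :: s) x ≠ 0) :
    3 / 4 < 2 ^ (s.length + 1) * x (e (σ :: s)) ∧ nlev e (s.length + 1) x < 2 ∧
      1 / 2 < act e s x := by
  refine ⟨?_, ?_, ?_⟩
  · by_contra h1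
    apply h
    rw [act, alpha_eq_zero (not_lt.1 h1)]; ring
  · by_contra h1
    apply h
    rw [act, beta_eq_zero (not_lt.1 h1)]; ring
  · by_contra h1
    apply h
    rw [act, mu_eq_zero (not_lt.1 h1)]; ring

theorem summable_rho (hp : p ≠ ⊤) (he : Function.Injective e) (k : ℕ)
    (x : lp (fun _ : Γ => ℝ) p) : Summable (fun s : Lev S k => rho (2 ^ k * x (e s.1))) := by
  refine summable_of_hasFiniteSupport ((finite_act hp (inj_lev he k) x (thr_pos k)).subset ?_)
  intro s hs
  by_contra h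
  exact hs (rho_eq_zero (lt_of_abs_lt_thr (not_le.1 h)).le)

/-- at most one node of each level is active -/
theorem act_exclusive (hp : p ≠ ⊤) (he : Function.Injective e) {k : ℕ} (hk : 1 ≤ k)
    {x : lp (fun _ : Γ => ℝ) p} {s t : Lev S k} (hs : act e s.1 x ≠ 0) (ht : act e t.1 x ≠ 0) :
    s = t := by
  classical
  by_contra hne
  have key : ∀ s : Lev S k, act e s.1 x ≠ 0 → rho (2 ^ k * x (e s.1)) = 1 ∧ nlev e k x < 2 := by
    rintro ⟨s, hs⟩ h
    cases s with
    | nil => simp at hs; omega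
    | cons σ t =>
      have ht : t.length + 1 = k := by simpa using hs
      have h2 := act_ne_zero h
      rw [ht] at h2
      exact ⟨rho_eq_one h2.1.le, h2.2.1⟩
  have h1 := key s hs
  have h2 := key t ht
  have h3 : (∑ u ∈ ({s, t} : Finset (Lev S k)), rho (2 ^ k * x (e u.1))) ≤ nlev e k x :=
    (summable_rho hp he k x).sum_le_tsum _ (fun _ _ => rho_nonneg _)
  rw [Finset.sum_pair hne, h1.1, h2.1] at h3
  linarith [h1.2]

/-- the level function with increments `w` -/
noncomputable def lev (e : List S → Γ) (w : List S → F) (k : ℕ) (x : lp (fun _ : Γ => ℝ) p) : F :=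
  ∑' s : Lev S k, lam (act e s.1 x) • w s.1

theorem lam_act_supp {k : ℕ} (hk : 1 ≤ k) (s : Lev S k) (x : lp (fun _ : Γ => ℝ) p)
    (hx : |x (e s.1)| < thr k) : lam (act e s.1 x) = 0 := by
  have : act e s.1 x = 0 := by
    by_contra h
    obtain ⟨s, hs⟩ := s
    cases s with
    | nil => simp at hs; omega
    | cons σ t =>
      have ht : t.length + 1 = k := by simpa using hs
      have h2 := (act_ne_zero h).1
      rw [ht] at h2
      have := lt_of_abs_lt_thr hx
      linarith
  rw [this]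
  exact lam_eq_zero (by norm_num)

theorem lev_contDiff (hp : p ≠ ⊤) (he : Function.Injective e) (w : List S → F) {k : ℕ}
    (hk : 1 ≤ k) : ContDiff ℝ ∞ (lev (p := p) e w k) := by
  refine locSum_contDiff hp (inj_lev he k) (thr_pos k) (fun s => ?_) (fun s x hx => ?_)
  · exact (contDiff_lam.comp ((utame_act (p := p) hp he k).1 s)).smul contDiff_const
  · rw [lam_act_supp hk s x hx, zero_smul]

theorem lev_bound (hp : p ≠ ⊤) (he : Function.Injective e) {k : ℕ} (hk : 1 ≤ k) :
    ∃ K : ℝ, 0 ≤ K ∧ ∀ (w : List S → F) (δ : ℝ), 0 ≤ δ → (∀ s, s.length = k → ‖w s‖ ≤ δ) →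
      ∀ j ≤ k, ∀ x : lp (fun _ : Γ => ℝ) p, ‖x‖ ≤ k →
        ‖iteratedFDeriv ℝ j (lev e w k) x‖ ≤ K * δ := by
  obtain ⟨M, hM1, hM⟩ := ((utame_act (p := p) hp he k).comp contDiff_lam).bound k k
  have hthr := thr_pos k
  refine ⟨((k : ℝ) / (thr k / 2)) ^ p.toReal * M, by positivity, ?_⟩
  intro w δ hδ hw j hj x hx
  have h1 : ∀ s : Lev S k, ‖iteratedFDeriv ℝ j
      (fun y : lp (fun _ : Γ => ℝ) p => lam (act e s.1 y) • w s.1) x‖ ≤ δ * M := by
    intro s
    refine (norm_iteratedFDeriv_smul_const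
      (contDiff_lam.comp ((utame_act (p := p) hp he k).1 s)) _ j x).trans ?_
    exact mul_le_mul (hw s.1 s.2) (hM j hj s x hx) (norm_nonneg _) hδ
  have h2 := locSum_bound hp (inj_lev he k) (thr_pos k)
    (f := fun (s : Lev S k) (y : lp (fun _ : Γ => ℝ) p) => lam (act e s.1 y) • w s.1)
    (fun s => (contDiff_lam.comp ((utame_act (p := p) hp he k).1 s)).smul contDiff_const)
    (fun s x hx => by rw [lam_act_supp hk s x hx, zero_smul]) j x (M := δ * M)
    (by positivity) h1
  refine h2.trans ?_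
  calc (‖x‖ / (thr k / 2)) ^ p.toReal * (δ * M)
      ≤ ((k : ℝ) / (thr k / 2)) ^ p.toReal * (δ * M) := by
        refine mul_le_mul_of_nonneg_right ?_ (by positivity)
        refine Real.rpow_le_rpow (by positivity) ?_ (toReal_pos' hp).le
        gcongr
    _ = ((k : ℝ) / (thr k / 2)) ^ p.toReal * M * δ := by ring

end

end Y105.Tame
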