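import Pool.Agent.Y105.TreeMap

open Set Topology Filter
open scoped ContDiff ENNReal

namespace Y105.Tame

variable {Γ : Type*} {p : ℝ≥0∞} [hp1 : Fact (1 ≤ p)]
variable {F : Type*} [NormedAddCommGroup F] [NormedSpace ℝ F]
variable {S : Type*} {e : List S → Γ}

/-- the tree map -/
noncomputable def tree (e : List S → Γ) (w : List S → F) (x : lp (fun _ : Γ => ℝ) p) : F :=
  ∑' k : ℕ, lev e w (k + 1) x

/-- a sequence of tolerances that makes the tree map smooth -/
structure Tol (p : ℝ≥0∞) [Fact (1 ≤ p)] (F : Type*) [NormedAddCommGroup F] [NormedSpace ℝ F]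
    (e : List S → Γ) (δ : ℕ → ℝ) : Prop where
  pos : ∀ k, 0 < δ k
  anti : Antitone δ
  le : ∀ k, δ k ≤ (1 / 2) ^ k
  bound : ∀ k, 1 ≤ k → ∀ w : List S → F, (∀ s, s.length = k → ‖w s‖ ≤ δ k) →
    ∀ j ≤ k, ∀ x : lp (fun _ : Γ => ℝ) p, ‖x‖ ≤ k →
        ‖iteratedFDeriv ℝ j (lev e w k) x‖ ≤ (1 / 2) ^ k

theorem exists_tol (hp : p ≠ ⊤) (he : Function.Injective e) : ∃ δ : ℕ → ℝ, Tol p F e δ := by
  have h : ∀ k : ℕ, ∃ K : ℝ, 0 ≤ K ∧ (1 ≤ k → ∀ (w : List S → F) (δ : ℝ), 0 ≤ δ →
      (∀ s, s.length = k → ‖w s‖ ≤ δ) →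
      ∀ j ≤ k, ∀ x : lp (fun _ : Γ => ℝ) p, ‖x‖ ≤ k →
        ‖iteratedFDeriv ℝ j (lev e w k) x‖ ≤ K * δ) := by
    intro k
    by_cases hk : 1 ≤ k
    · obtain ⟨K, hK0, hK⟩ := lev_bound (F := F) (p := p) hp he hk
      exact ⟨K, hK0, fun _ => hK⟩
    · exact ⟨0, le_rfl, fun h => absurd h hk⟩
  choose K hK0 hK using h
  have hsum : ∀ k, 0 ≤ ∑ i ∈ Finset.range (k + 1), K i := fun k =>
    Finset.sum_nonneg fun i _ => hK0 i
  have hpos : ∀ k, 0 < 1 + ∑ i ∈ Finset.range (k + 1), K i := fun k => by linarith [hsum k]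
  refine ⟨fun k => (1 / 2) ^ k / (1 + ∑ i ∈ Finset.range (k + 1), K i), ?_, ?_, ?_, ?_⟩
  · intro k
    have := hpos k
    positivity
  · refine antitone_nat_of_succ_le fun k => ?_
    refine div_le_div₀ (by positivity) ?_ (hpos k) ?_
    · exact pow_le_pow_of_le_one (by norm_num) (by norm_num) (Nat.le_succ k)
    · rw [Finset.sum_range_succ _ (k + 1)]
      linarith [hK0 (k + 1)]
  · intro k
    refine div_le_self (by positivity) (by linarith [hsum k])
  · intro k hk w hw j hj x hx
    have h1 := hK k hk w _ (by have := hpos k; positivity) hw j hj x hx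
    refine h1.trans ?_
    have h2 : K k ≤ 1 + ∑ i ∈ Finset.range (k + 1), K i := by
      have := Finset.single_le_sum (f := K) (fun i _ => hK0 i) (Finset.self_mem_range_succ k)
      linarith
    rw [mul_div_assoc', div_le_iff₀ (hpos k), mul_comm]
    exact mul_le_mul_of_nonneg_left h2 (by positivity)

theorem lev_norm_le {δ : ℕ → ℝ} (hδ : Tol p F e δ) {w : List S → F}
    (hw : ∀ k, 2 ≤ k → ∀ s : List S, s.length = k → ‖w s‖ ≤ δ k) {k : ℕ} (hk : 2 ≤ k)
    {x : lp (fun _ : Γ => ℝ) p} (hx : ‖x‖ ≤ k) : ‖lev e w k x‖ ≤ (1 / 2) ^ k := by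
  have := hδ.bound k (by omega) w (hw k hk) 0 (Nat.zero_le _) x hx
  rwa [norm_iteratedFDeriv_zero] at this

theorem summable_lev [CompleteSpace F] {δ : ℕ → ℝ} (hδ : Tol p F e δ) {w : List S → F}
    (hw : ∀ k, 2 ≤ k → ∀ s : List S, s.length = k → ‖w s‖ ≤ δ k)
    (x : lp (fun _ : Γ => ℝ) p) : Summable (fun k : ℕ => lev e w (k + 1) x) := by
  obtain ⟨N, hN⟩ := exists_nat_ge ‖x‖
  rw [← summable_nat_add_iff (N + 1)]
  refine Summable.of_norm_bounded (g := fun k : ℕ => (1 / 2 : ℝ) ^ (k + (N + 1) + 1)) ?_ ?_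
  · have h : Summable (fun k : ℕ => (1 / 2 : ℝ) ^ k) := summable_geometric_two
    exact (summable_nat_add_iff (f := fun k : ℕ => (1 / 2 : ℝ) ^ k) (N + 1 + 1)).2 h
  · intro k
    refine lev_norm_le hδ hw (by omega) (hN.trans ?_)
    push_cast
    have : (0 : ℝ) ≤ k := Nat.cast_nonneg k
    linarith

theorem tree_contDiff [CompleteSpace F] (hp : p ≠ ⊤) (he : Function.Injective e) {δ : ℕ → ℝ}
    (hδ : Tol p F e δ) {w : List S → F}
    (hw : ∀ k, 2 ≤ k → ∀ s : List S, s.length = k → ‖w s‖ ≤ δ k) :
    ContDiff ℝ ∞ (tree (p := p) e w) := by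
  rw [contDiff_infty]
  intro n
  rw [contDiff_iff_contDiffAt]
  intro x₀
  obtain ⟨N, hN⟩ := exists_nat_ge (‖x₀‖ + 1)
  let k₀ := max N (n + 1)
  have hsplit : tree (p := p) e w = fun x => (∑ k ∈ Finset.range k₀, lev e w (k + 1) x)
      + ∑' k : ℕ, lev e w (k + k₀ + 1) x := by
    funext x
    exact ((summable_lev hδ hw x).sum_add_tsum_nat_add k₀).symm
  rw [hsplit]
  refine ContDiffAt.add ?_ ?_
  · exact ContDiffAt.sum fun k _ =>
      ((lev_contDiff hp he w (by omega)).of_le (by exact_mod_cast le_top)).contDiffAt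
  · have hball : ContDiffOn ℝ n (fun x : lp (fun _ : Γ => ℝ) p => ∑' k : ℕ, lev e w (k + k₀ + 1) x)
        (Metric.ball x₀ 1) := by
      refine contDiffOn_tsum_nat (v := fun k : ℕ => (1 / 2 : ℝ) ^ (k + k₀ + 1)) Metric.isOpen_ball
        (convex_ball x₀ 1).isPreconnected (fun k => ?_) ?_ ?_
      · exact (lev_contDiff hp he w (by omega)).of_le (by exact_mod_cast le_top)
      · have h : Summable (fun k : ℕ => (1 / 2 : ℝ) ^ k) := summable_geometric_two
        exact (summable_nat_add_iff (f := fun k : ℕ => (1 / 2 : ℝ) ^ k) (k₀ + 1)).2 h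
      · intro j hj k x hx
        have h1 : n + 1 ≤ k₀ := le_max_right _ _
        have h2 : N ≤ k₀ := le_max_left _ _
        refine hδ.bound _ (by omega) w (hw _ (by omega)) j (by omega) x ?_
        have h3 : ‖x‖ ≤ ‖x₀‖ + 1 := by
          have := norm_sub_norm_le x x₀
          have h4 : ‖x - x₀‖ < 1 := by rw [← dist_eq_norm]; exact hx
          linarith
        refine h3.trans (hN.trans ?_)
        exact_mod_cast (by omega : N ≤ k + k₀ + 1)
    exact hball.contDiffAt (Metric.ball_mem_nhds x₀ one_pos)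

/-! ### values of the tree map -/

theorem lev_eq (hp : p ≠ ⊤) (he : Function.Injective e) (w : List S → F) {s : List S}
    (hs : s ≠ []) {x : lp (fun _ : Γ => ℝ) p} (h : act e s x ≠ 0) :
    lev e w s.length x = lam (act e s x) • w s := by
  have hk : 1 ≤ s.length := by
    rcases Nat.eq_zero_or_pos s.length with h0 | h0
    · exact absurd (List.eq_nil_of_length_eq_zero h0) hs
    · exact h0
  unfold lev
  rw [tsum_eq_single (⟨s, rfl⟩ : Lev S s.length)]
  intro t ht
  have : act e t.1 x = 0 := by
    by_contra h2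
    exact ht (act_exclusive hp he hk h2 h)
  rw [this, lam_eq_zero (by norm_num), zero_smul]

omit hp1 in
theorem lev_eq_zero (w : List S → F) {k : ℕ} {x : lp (fun _ : Γ => ℝ) p}
    (h : ∀ s : List S, s.length = k → lam (act e s x) = 0) : lev e w k x = 0 := by
  unfold lev
  have : (fun s : Lev S k => lam (act e s.1 x) • w s.1) = fun _ => 0 := by
    funext s
    rw [h s.1 s.2, zero_smul]
  rw [this, tsum_zero]

omit hp1 in
theorem act_ne_zero_of_lam {s : List S} {x : lp (fun _ : Γ => ℝ) p}
    (h : lam (act e s x) ≠ 0) : act e s x ≠ 0 := by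
  intro h0
  rw [h0] at h
  exact h (lam_eq_zero (by norm_num))

omit hp1 in
theorem lam_tail {σ : S} {s : List S} {x : lp (fun _ : Γ => ℝ) p}
    (h : act e (σ :: s) x ≠ 0) : lam (act e s x) = 1 :=
  lam_eq_one (act_ne_zero h).2.2.le

/-- increments of a potential -/
def incr (v : List S → F) (s : List S) : F := v s - v s.tail

theorem partial_full (hp : p ≠ ⊤) (he : Function.Injective e) (v : List S → F) (hv : v [] = 0)
    {x : lp (fun _ : Γ => ℝ) p} (s : List S) (h : lam (act e s x) = 1) :
    ∑ k ∈ Finset.range s.length, lev e (incr v) (k + 1) x = v s := by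
  induction s with
  | nil => simp [hv]
  | cons σ s ih =>
    have hact : act e (σ :: s) x ≠ 0 := act_ne_zero_of_lam (by rw [h]; exact one_ne_zero)
    have h1 := ih (lam_tail hact)
    have h2 := lev_eq hp he (incr v) (List.cons_ne_nil σ s) hact
    rw [List.length_cons, Finset.sum_range_succ, h1]
    rw [List.length_cons] at h2
    rw [h2, h, one_smul, incr, List.tail_cons]
    abel

theorem partial_last (hp : p ≠ ⊤) (he : Function.Injective e) (v : List S → F) (hv : v [] = 0)
    {x : lp (fun _ : Γ => ℝ) p} (σ : S) (s : List S) (h : act e (σ :: s) x ≠ 0) :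
    ∑ k ∈ Finset.range (s.length + 1), lev e (incr v) (k + 1) x
      = v s + lam (act e (σ :: s) x) • (v (σ :: s) - v s) := by
  have h1 := partial_full hp he v hv s (lam_tail h)
  have h2 := lev_eq hp he (incr v) (List.cons_ne_nil σ s) h
  rw [List.length_cons] at h2
  rw [Finset.sum_range_succ, h1, h2, incr, List.tail_cons]

/-- The three types of values of the tree map. -/
theorem tree_value [CompleteSpace F] (hp : p ≠ ⊤) (he : Function.Injective e) (v : List S → F)
    (hv : v [] = 0) {δ : ℕ → ℝ} (hδ : Tol p F e δ)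
    (hw : ∀ k, 2 ≤ k → ∀ s : List S, s.length = k → ‖incr v s‖ ≤ δ k)
    (x : lp (fun _ : Γ => ℝ) p) :
    tree e (incr v) x = 0 ∨
    (∃ (σ : S) (s : List S) (τ : ℝ), x (e (σ :: s)) ≠ 0 ∧
      tree e (incr v) x = v s + τ • (v (σ :: s) - v s)) ∨
    (∃ br : ℕ → List S, (∀ k, (br k).length = k) ∧ (∀ k, ∃ σ, br (k + 1) = σ :: br k) ∧
      (∀ k, x (e (br (k + 1))) ≠ 0) ∧ Tendsto (fun k => v (br k)) atTop (𝓝 (tree e (incr v) x))) := by
  classical
  by_cases hall : ∀ k, ∃ s : List S, s.length = k ∧ lam (act e s x) ≠ 0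
  · right; right
    choose br hlen hbr using hall
    have hbr' : ∀ k, act e (br k) x ≠ 0 := fun k => act_ne_zero_of_lam (hbr k)
    have hstep : ∀ k, ∃ σ, br (k + 1) = σ :: br k := by
      intro k
      cases hb : br (k + 1) with
      | nil =>
        have := hlen (k + 1)
        rw [hb] at this
        simp at this
      | cons σ t =>
        have ht : t.length = k := by
          have := hlen (k + 1)
          rw [hb] at this
          simpa using this
        have h1 := hbr' (k + 1)
        rw [hb] at h1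
        have h2 : act e t x ≠ 0 := by
          have := (act_ne_zero h1).2.2
          linarith
        refine ⟨σ, ?_⟩
        rcases Nat.eq_zero_or_pos k with h0 | h0
        · have e1 : br k = [] := List.eq_nil_of_length_eq_zero (by rw [hlen k, h0])
          have e2 : t = [] := List.eq_nil_of_length_eq_zero (by rw [ht, h0])
          rw [e1, e2]
        · have := act_exclusive hp he h0 (s := ⟨br k, hlen k⟩) (t := ⟨t, ht⟩) (hbr' k) h2
          have := congrArg Subtype.val this
          simp only at this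
          rw [this]
    have hlam : ∀ k, lam (act e (br k) x) = 1 := by
      intro k
      obtain ⟨σ, hσ⟩ := hstep k
      have h1 := hbr' (k + 1)
      rw [hσ] at h1
      exact lam_tail h1
    refine ⟨br, hlen, hstep, fun k => ?_, ?_⟩
    · obtain ⟨σ, hσ⟩ := hstep k
      have h1 := hbr' (k + 1)
      rw [hσ] at h1 ⊢
      have h2 := (act_ne_zero h1).1
      intro h0
      rw [h0] at h2
      norm_num at h2
    · have h1 := (summable_lev hδ hw x).hasSum.tendsto_sum_nat
      refine h1.congr fun k => ?_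
      have := partial_full hp he v hv (br k) (hlam k)
      rwa [hlen k] at this
  · push Not at hall
    let m := Nat.find hall
    have hm : ∀ s : List S, s.length = m → lam (act e s x) = 0 := Nat.find_spec hall
    have hdown : ∀ k, (∀ s : List S, s.length = m + k → lam (act e s x) = 0) := by
      intro k
      induction k with
      | zero => exact hm
      | succ k ih =>
        intro s hs
        by_contra h
        have hact := act_ne_zero_of_lam h
        cases s with
        | nil => simp at hs
        | cons σ t =>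
          have h1 := ih t (by simp at hs; omega)
          rw [lam_tail hact] at h1
          exact one_ne_zero h1
    have htail : ∀ k, m ≤ k → lev e (incr v) k x = 0 := by
      intro k hk
      apply lev_eq_zero
      obtain ⟨d, rfl⟩ := Nat.exists_eq_add_of_le hk
      exact hdown d
    have hm0 : m ≠ 0 := by
      intro h0
      have := hm [] (by simp [h0])
      simp only [act] at this
      rw [lam_eq_one (by norm_num)] at this
      exact one_ne_zero this
    obtain ⟨m', hm'⟩ := Nat.exists_eq_succ_of_ne_zero hm0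
    have hfin : tree e (incr v) x = ∑ k ∈ Finset.range m', lev e (incr v) (k + 1) x := by
      refine tsum_eq_sum ?_
      intro k hk
      apply htail
      simp at hk
      omega
    have hprev : ∃ s : List S, s.length = m' ∧ lam (act e s x) ≠ 0 := by
      have := Nat.find_min hall (m := m') (by
        change m' < m
        omega)
      push Not at this
      exact this
    obtain ⟨s, hs, hlam⟩ := hprev
    cases s with
    | nil =>
      left
      have : m' = 0 := by simpa using hs.symm
      rw [hfin, this]; simp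
    | cons σ t =>
      right; left
      have hact := act_ne_zero_of_lam hlam
      refine ⟨σ, t, lam (act e (σ :: t) x), ?_, ?_⟩
      · have h2 := (act_ne_zero hact).1
        intro h0
        rw [h0] at h2
        norm_num at h2
      · have ht : m' = t.length + 1 := by rw [← hs]; simp
        rw [hfin, ht]
        exact partial_last hp he v hv σ t hact

/-- The value of the tree map at the vector coding a branch. -/
theorem tree_branch [CompleteSpace F] (hp : p ≠ ⊤) (he : Function.Injective e) (v : List S → F)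
    (hv : v [] = 0) {δ : ℕ → ℝ} (hδ : Tol p F e δ)
    (hw : ∀ k, 2 ≤ k → ∀ s : List S, s.length = k → ‖incr v s‖ ≤ δ k)
    (br : ℕ → List S) (hlen : ∀ k, (br k).length = k) (hstep : ∀ k, ∃ σ, br (k + 1) = σ :: br k)
    {z : F} (hz : Tendsto (fun k => v (br k)) atTop (𝓝 z)) :
    ∃ x : lp (fun _ : Γ => ℝ) p, tree e (incr v) x = z := by
  classical
  -- the coding vector
  let c : ℕ → Γ := fun k => e (br (k + 1))
  have hc : Function.Injective c := by
    intro i j hij
    have h1 := he hij
    have h2 := congrArg List.length h1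
    rw [hlen, hlen] at h2
    omega
  let f : Γ → ℝ := fun γ => if h : ∃ k, c k = γ then (2 ^ (h.choose + 1))⁻¹ else 0
  have hf : ∀ k, f (c k) = (2 ^ (k + 1))⁻¹ := by
    intro k
    have h : ∃ k', c k' = c k := ⟨k, rfl⟩
    have h2 : h.choose = k := hc h.choose_spec
    simp only [f, dif_pos h, h2]
  have hf0 : ∀ γ, (∀ k, c k ≠ γ) → f γ = 0 := by
    intro γ hγ
    have : ¬ ∃ k, c k = γ := by push Not; exact hγ
    simp only [f, dif_neg this]
  have hp0 := toReal_pos' hp
  have hmem : Memℓp f p := by
    refine memℓp_gen ?_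
    have hsupp : ∀ γ, γ ∉ Set.range c → ‖f γ‖ ^ p.toReal = 0 := by
      intro γ hγ
      rw [hf0 γ (fun k hk => hγ ⟨k, hk⟩), norm_zero, Real.zero_rpow hp0.ne']
    rw [← hc.summable_iff hsupp]
    have : ((fun γ => ‖f γ‖ ^ p.toReal) ∘ c) = fun k : ℕ => (((2 : ℝ) ^ p.toReal)⁻¹) ^ (k + 1) := by
      funext k
      simp only [Function.comp, hf]
      rw [norm_inv, norm_pow, Real.norm_eq_abs, abs_of_pos (by norm_num : (0 : ℝ) < 2),
        Real.inv_rpow (by positivity), inv_pow, ← Real.rpow_natCast, ← Real.rpow_natCast,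
        ← Real.rpow_mul (by norm_num), ← Real.rpow_mul (by norm_num), mul_comm]
    rw [this]
    have hlt : ((2 : ℝ) ^ p.toReal)⁻¹ < 1 := by
      apply inv_lt_one_of_one_lt₀
      exact Real.one_lt_rpow (by norm_num) hp0
    exact (summable_nat_add_iff (f := fun k : ℕ => (((2 : ℝ) ^ p.toReal)⁻¹) ^ k) 1).2
      (summable_geometric_of_lt_one (by positivity) hlt)
  let x : lp (fun _ : Γ => ℝ) p := ⟨f, hmem⟩
  have hx : ∀ γ, x γ = f γ := fun γ => rfl
  have hnlev : ∀ k, nlev e (k + 1) x = 1 := by
    intro k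
    unfold nlev
    rw [tsum_eq_single (⟨br (k + 1), hlen _⟩ : Lev S (k + 1))]
    · have : x (e (br (k + 1))) = (2 ^ (k + 1))⁻¹ := hf k
      simp only [this]
      rw [mul_inv_cancel₀ (by positivity)]
      exact rho_eq_one (by norm_num)
    · intro s hs
      have : x (e s.1) = 0 := by
        apply hf0
        intro j hj
        have h1 := he hj
        have h2 := congrArg List.length h1
        rw [hlen, s.2] at h2
        have h3 : j = k := by omega
        subst h3
        exact hs (Subtype.ext h1.symm)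
      rw [this, mul_zero]
      exact rho_eq_zero (by norm_num)
  have hact : ∀ k, act e (br k) x = 1 := by
    intro k
    induction k with
    | zero =>
      have : br 0 = [] := List.eq_nil_of_length_eq_zero (hlen 0)
      rw [this]; rfl
    | succ k ih =>
      obtain ⟨σ, hσ⟩ := hstep k
      have h1 : x (e (σ :: br k)) = (2 ^ (k + 1))⁻¹ := by
        rw [← hσ]; exact hf k
      rw [hσ, act, hlen, h1, hnlev, ih, mul_inv_cancel₀ (by positivity), alpha_one, beta_one,
        mu_one]
      norm_num
  refine ⟨x, ?_⟩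
  have h1 := (summable_lev hδ hw x).hasSum.tendsto_sum_nat
  have h2 : Tendsto (fun k => v (br k)) atTop (𝓝 (tree e (incr v) x)) := by
    refine h1.congr fun k => ?_
    have := partial_full hp he v hv (br k) (x := x) (by rw [hact k]; exact lam_eq_one (by norm_num))
    rwa [hlen k] at this
  exact tendsto_nhds_unique h2 hz

end Y105.Tame
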